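import Pool.Agent.Helper24.UG.Ker

/-!
# WS: the loss at the edges of a window

`Pk a b = ∫_0^b (qk a - qk 0)`; since `(1-u)² (cosh (au) - 1)/u` vanishes at `0` and doubly at `1`, it decays like
`a²/b²`. Integrated over a window, the difference between the smooth count of the ordinates and the explicit formula
is a difference of two sums of `Pk` over the zeros, one for each end of the window.
-/

set_option autoImplicit false
open MeasureTheory Set Filter Topology
open Pool.Agent.Helper57.Zeta Pool.Agent.Helper57.LH Pool.Agent.Helper57.ED Pool.Agent.Helper54.LG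
open Pool.Agent.Helper69.UG Pool.Agent.Helper24.UG

namespace Pool.Agent.Helper24.WS

/-- The primitive of `qk a - qk 0`. -/
noncomputable def Pk (a b : ℝ) : ℝ := ∫ x in (0:ℝ)..b, (qk a x - qk 0 x)

/-- `2 ∫_0^1 (1-u)² sinh (au) sin (bu) du`, the `a`-derivative of `Pk`. -/
noncomputable def Rk (a b : ℝ) : ℝ := 2 * ∫ u in (0:ℝ)..1, (1 - u) ^ 2 * Real.sinh (a * u) * Real.sin (b * u)

private lemma sinh_le {x : ℝ} (hx : 0 ≤ x) : Real.sinh x ≤ x * Real.cosh x := by
  have hm : MonotoneOn (fun x : ℝ => x * Real.cosh x - Real.sinh x) (Ici 0) := by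
    refine monotoneOn_of_deriv_nonneg (convex_Ici 0) (by fun_prop) (by fun_prop) fun x hx => ?_
    rw [interior_Ici] at hx
    have h : HasDerivAt (fun x : ℝ => x * Real.cosh x - Real.sinh x)
        (1 * Real.cosh x + x * Real.sinh x - Real.cosh x) x :=
      ((hasDerivAt_id x).mul (Real.hasDerivAt_cosh x)).sub (Real.hasDerivAt_sinh x)
    rw [h.deriv]
    have := mul_nonneg (le_of_lt hx) (Real.sinh_nonneg_iff.2 (le_of_lt hx))
    linarith
  have := hm (mem_Ici.2 le_rfl) (mem_Ici.2 hx) hx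
  simp only [zero_mul, Real.sinh_zero, sub_zero] at this
  linarith

private lemma cosh_mul_le {a u : ℝ} (h0 : 0 ≤ u) (h1 : u ≤ 1) : Real.cosh (a * u) ≤ Real.cosh a := by
  rw [Real.cosh_le_cosh, abs_mul, abs_of_nonneg h0]
  exact mul_le_of_le_one_right (abs_nonneg a) h1

/-- second derivative of `(1-u)² sinh (au)` -/
private noncomputable def E2 (a u : ℝ) : ℝ :=
  2 * Real.sinh (a * u) - 4 * (1 - u) * (a * Real.cosh (a * u)) + (1 - u) ^ 2 * (a ^ 2 * Real.sinh (a * u))

private lemma E2_cont (a : ℝ) : Continuous (E2 a) := by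
  unfold E2
  fun_prop

private lemma parts (a b : ℝ) :
    b ^ 2 * (∫ u in (0:ℝ)..1, (1 - u) ^ 2 * Real.sinh (a * u) * Real.sin (b * u)) =
      -∫ u in (0:ℝ)..1, E2 a u * Real.sin (b * u) := by
  have hd : ∀ u : ℝ, HasDerivAt (fun u : ℝ =>
      (-2 * ((1 - u) * Real.sinh (a * u)) + (1 - u) ^ 2 * (a * Real.cosh (a * u))) * Real.sin (b * u)
      - (1 - u) ^ 2 * Real.sinh (a * u) * (b * Real.cos (b * u)))
      (b ^ 2 * ((1 - u) ^ 2 * Real.sinh (a * u) * Real.sin (b * u)) + E2 a u * Real.sin (b * u)) u := by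
    intro u
    have h1 : HasDerivAt (fun u : ℝ => 1 - u) (-1) u := by
      simpa using (hasDerivAt_id u).const_sub 1
    have ha : HasDerivAt (fun u : ℝ => a * u) a u := by
      simpa using (hasDerivAt_id u).const_mul a
    have hb : HasDerivAt (fun u : ℝ => b * u) b u := by
      simpa using (hasDerivAt_id u).const_mul b
    have hs := ha.sinh
    have hc := ha.cosh.const_mul a
    have e1 := (((h1.mul hs).const_mul (-2)).add ((h1.pow 2).mul hc)).mul hb.sin
    have e2 := ((h1.pow 2).mul hs).mul (hb.cos.const_mul b)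
    refine (e1.sub e2).congr_deriv ?_
    unfold E2
    simp only [Pi.mul_apply, Pi.pow_apply, Pi.add_apply]
    push_cast
    ring
  have c1 : Continuous fun u : ℝ => (1 - u) ^ 2 * Real.sinh (a * u) * Real.sin (b * u) := by fun_prop
  have c2 : Continuous fun u : ℝ => E2 a u * Real.sin (b * u) := (E2_cont a).mul (by fun_prop)
  have key := intervalIntegral.integral_eq_sub_of_hasDerivAt (a := 0) (b := 1)
    (fun u _ => hd u) (((c1.const_mul (b ^ 2)).add c2).intervalIntegrable 0 1)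
  rw [intervalIntegral.integral_add ((c1.const_mul (b ^ 2)).intervalIntegrable 0 1)
    (c2.intervalIntegrable 0 1), intervalIntegral.integral_const_mul] at key
  simp only [sub_self, mul_one, mul_zero, Real.sin_zero, Real.sinh_zero, Real.cosh_zero, sub_zero, zero_mul,
    add_zero, ne_eq, OfNat.ofNat_ne_zero, not_false_eq_true, zero_pow] at key
  linarith [key]

private lemma abs_E2_le {a u : ℝ} (ha : 0 ≤ a) (h0 : 0 ≤ u) (h1 : u ≤ 1) :
    |E2 a u| ≤ a * (6 + a ^ 2) * Real.cosh a := by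
  have hc := cosh_mul_le (a := a) h0 h1
  have hc0 := Real.cosh_pos (a * u)
  have hs0 : 0 ≤ Real.sinh (a * u) := Real.sinh_nonneg_iff.2 (mul_nonneg ha h0)
  have hs : Real.sinh (a * u) ≤ a * Real.cosh a := by
    refine (sinh_le (mul_nonneg ha h0)).trans ?_
    refine mul_le_mul (mul_le_of_le_one_right ha h1) hc hc0.le ha
  have hca := Real.cosh_pos a
  have hu : 0 ≤ 1 - u := by linarith
  have hu1 : 1 - u ≤ 1 := by linarith
  have e2 : 4 * (1 - u) * (a * Real.cosh (a * u)) ≤ 4 * (a * Real.cosh a) := by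
    have : (1 - u) * (a * Real.cosh (a * u)) ≤ 1 * (a * Real.cosh a) :=
      mul_le_mul hu1 (mul_le_mul_of_nonneg_left hc ha) (by positivity) zero_le_one
    linarith
  have e2' : 0 ≤ 4 * (1 - u) * (a * Real.cosh (a * u)) := by positivity
  have e3 : (1 - u) ^ 2 * (a ^ 2 * Real.sinh (a * u)) ≤ a ^ 2 * (a * Real.cosh a) := by
    have : (1 - u) ^ 2 * (a ^ 2 * Real.sinh (a * u)) ≤ 1 * (a ^ 2 * (a * Real.cosh a)) :=
      mul_le_mul (pow_le_one₀ hu hu1) (mul_le_mul_of_nonneg_left hs (sq_nonneg a)) (by positivity) zero_le_one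
    linarith
  have e3' : 0 ≤ (1 - u) ^ 2 * (a ^ 2 * Real.sinh (a * u)) := by positivity
  have h6 : a * (6 + a ^ 2) * Real.cosh a = 6 * (a * Real.cosh a) + a ^ 2 * (a * Real.cosh a) := by ring
  have h7 : 0 ≤ a * Real.cosh a := by positivity
  have h8 : 0 ≤ a ^ 2 * (a * Real.cosh a) := by positivity
  rw [h6]
  unfold E2
  rw [abs_le]
  constructor <;> linarith

theorem Rk_abs_le {a : ℝ} (ha : 0 ≤ a) (b : ℝ) : |Rk a b| ≤ 2 * (a * (7 + a ^ 2) * Real.cosh a) / (1 + b ^ 2) := by
  have hca := Real.cosh_pos a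
  have h1 : |∫ u in (0:ℝ)..1, (1 - u) ^ 2 * Real.sinh (a * u) * Real.sin (b * u)| ≤ a * Real.cosh a := by
    have := intervalIntegral.norm_integral_le_of_norm_le_const (a := 0) (b := 1) (C := a * Real.cosh a)
      (f := fun u => (1 - u) ^ 2 * Real.sinh (a * u) * Real.sin (b * u)) ?_
    · simpa using this
    · intro u hu
      rw [uIoc_of_le zero_le_one] at hu
      have h0 := hu.1.le
      have h1 := hu.2
      have hs0 : 0 ≤ Real.sinh (a * u) := Real.sinh_nonneg_iff.2 (mul_nonneg ha h0)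
      have hs : Real.sinh (a * u) ≤ a * Real.cosh a := by
        refine (sinh_le (mul_nonneg ha h0)).trans ?_
        exact mul_le_mul (mul_le_of_le_one_right ha h1) (cosh_mul_le h0 h1) (Real.cosh_pos _).le ha
      rw [Real.norm_eq_abs, abs_mul, abs_mul, abs_of_nonneg (sq_nonneg (1 - u)), abs_of_nonneg hs0]
      calc (1 - u) ^ 2 * Real.sinh (a * u) * |Real.sin (b * u)| ≤ 1 * (a * Real.cosh a) * 1 := by
            refine mul_le_mul (mul_le_mul (pow_le_one₀ (by linarith) (by linarith)) hs hs0 zero_le_one)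
              (Real.abs_sin_le_one _) (abs_nonneg _) (by positivity)
        _ = a * Real.cosh a := by ring
  have h2 : b ^ 2 * |∫ u in (0:ℝ)..1, (1 - u) ^ 2 * Real.sinh (a * u) * Real.sin (b * u)| ≤
      a * (6 + a ^ 2) * Real.cosh a := by
    rw [← abs_of_nonneg (sq_nonneg b), ← abs_mul, parts, abs_neg]
    have := intervalIntegral.norm_integral_le_of_norm_le_const (a := 0) (b := 1) (C := a * (6 + a ^ 2) * Real.cosh a)
      (f := fun u => E2 a u * Real.sin (b * u)) ?_
    · simpa using this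
    · intro u hu
      rw [uIoc_of_le zero_le_one] at hu
      rw [Real.norm_eq_abs, abs_mul]
      calc |E2 a u| * |Real.sin (b * u)| ≤ (a * (6 + a ^ 2) * Real.cosh a) * 1 :=
            mul_le_mul (abs_E2_le ha hu.1.le hu.2) (Real.abs_sin_le_one _) (abs_nonneg _) (by positivity)
        _ = _ := by ring
  unfold Rk
  rw [abs_mul, abs_of_pos (by norm_num : (0:ℝ) < 2), le_div_iff₀ (by positivity)]
  generalize |∫ u in (0:ℝ)..1, (1 - u) ^ 2 * Real.sinh (a * u) * Real.sin (b * u)| = I at *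
  have : a * (7 + a ^ 2) * Real.cosh a = a * Real.cosh a + a * (6 + a ^ 2) * Real.cosh a := by ring
  rw [this]
  nlinarith

theorem qk_sub_eq (a b : ℝ) : qk a b - qk 0 b =
    2 * ∫ u in (0:ℝ)..1, (1 - u) ^ 2 * (Real.cosh (a * u) - 1) * Real.cos (b * u) := by
  unfold qk
  rw [← mul_sub, ← intervalIntegral.integral_sub]
  · congr 1
    refine intervalIntegral.integral_congr fun u _ => ?_
    simp only [zero_mul, Real.cosh_zero]
    ring
  · apply Continuous.intervalIntegrable
    fun_prop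
  · apply Continuous.intervalIntegrable
    fun_prop

private lemma swap_cont {F : ℝ → ℝ → ℝ} (hF : Continuous (Function.uncurry F)) (a b c d : ℝ) :
    ∫ x in a..b, ∫ y in c..d, F x y = ∫ y in c..d, ∫ x in a..b, F x y := by
  refine intervalIntegral_intervalIntegral_swap ?_
  refine (hF.continuousOn.integrableOn_compact (isCompact_uIcc.prod isCompact_uIcc)
    (K := uIcc a b ×ˢ uIcc c d)).mono_set ?_
  exact prod_mono uIoc_subset_uIcc uIoc_subset_uIcc

private lemma prod_id (a b u : ℝ) :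
    (Real.cosh (a * u) - 1) * (∫ x in (0:ℝ)..b, Real.cos (x * u)) =
      ∫ α in (0:ℝ)..a, Real.sinh (α * u) * Real.sin (b * u) := by
  rcases eq_or_ne u 0 with h | h
  · subst h
    simp
  · have h1 : (∫ x in (0:ℝ)..b, Real.cos (x * u)) = Real.sin (b * u) / u := by
      rw [intervalIntegral.integral_comp_mul_right (fun x => Real.cos x) h, integral_cos]
      simp [div_eq_inv_mul]
    have h2 : (∫ α in (0:ℝ)..a, Real.sinh (α * u)) = (Real.cosh (a * u) - 1) / u := by
      have hd : ∀ x ∈ uIcc 0 a, HasDerivAt (fun x : ℝ => Real.cosh (x * u) / u) (Real.sinh (x * u)) x := by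
        intro x _
        have h3 : HasDerivAt (fun x : ℝ => x * u) u x := by simpa using (hasDerivAt_id x).mul_const u
        have := h3.cosh.div_const u
        refine this.congr_deriv ?_
        field_simp
      rw [intervalIntegral.integral_eq_sub_of_hasDerivAt hd (by apply Continuous.intervalIntegrable; fun_prop)]
      simp
      ring
    rw [intervalIntegral.integral_mul_const, h1, h2]
    ring

/-- `Pk` through `Rk`. -/
theorem Pk_eq (a b : ℝ) : Pk a b = ∫ α in (0:ℝ)..a, Rk α b := by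
  have e1 : Pk a b = ∫ x in (0:ℝ)..b, ∫ u in (0:ℝ)..1,
      2 * ((1 - u) ^ 2 * (Real.cosh (a * u) - 1) * Real.cos (x * u)) := by
    unfold Pk
    refine intervalIntegral.integral_congr fun x _ => ?_
    rw [qk_sub_eq, intervalIntegral.integral_const_mul]
  have e2 : ∫ α in (0:ℝ)..a, Rk α b = ∫ α in (0:ℝ)..a, ∫ u in (0:ℝ)..1,
      2 * ((1 - u) ^ 2 * Real.sinh (α * u) * Real.sin (b * u)) := by
    refine intervalIntegral.integral_congr fun x _ => ?_
    unfold Rk
    rw [intervalIntegral.integral_const_mul]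
  have s1 := swap_cont (F := fun x u => 2 * ((1 - u) ^ 2 * (Real.cosh (a * u) - 1) * Real.cos (x * u)))
    (by unfold Function.uncurry; fun_prop) 0 b 0 1
  have s2 := swap_cont (F := fun α u => 2 * ((1 - u) ^ 2 * Real.sinh (α * u) * Real.sin (b * u)))
    (by unfold Function.uncurry; fun_prop) 0 a 0 1
  rw [e1, e2, s1, s2]
  refine intervalIntegral.integral_congr fun u _ => ?_
  have h1 : (∫ x in (0:ℝ)..b, 2 * ((1 - u) ^ 2 * (Real.cosh (a * u) - 1) * Real.cos (x * u))) =
      2 * (1 - u) ^ 2 * ((Real.cosh (a * u) - 1) * (∫ x in (0:ℝ)..b, Real.cos (x * u))) := by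
    rw [intervalIntegral.integral_const_mul, intervalIntegral.integral_const_mul]
    ring
  have h2 : (∫ α in (0:ℝ)..a, 2 * ((1 - u) ^ 2 * Real.sinh (α * u) * Real.sin (b * u))) =
      2 * (1 - u) ^ 2 * ∫ α in (0:ℝ)..a, Real.sinh (α * u) * Real.sin (b * u) := by
    rw [← intervalIntegral.integral_const_mul]
    refine intervalIntegral.integral_congr fun α _ => ?_
    ring
  rw [h1, h2, prod_id]

theorem Pk_abs_le {a : ℝ} (ha : 0 ≤ a) (b : ℝ) :
    |Pk a b| ≤ 2 * (a ^ 2 * (7 + a ^ 2) * Real.cosh a) / (1 + b ^ 2) := by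
  rw [Pk_eq]
  have := intervalIntegral.norm_integral_le_of_norm_le_const (a := 0) (b := a)
    (C := 2 * (a * (7 + a ^ 2) * Real.cosh a) / (1 + b ^ 2)) (f := fun α => Rk α b) ?_
  · rw [Real.norm_eq_abs, sub_zero, abs_of_nonneg ha] at this
    refine this.trans (le_of_eq ?_)
    ring
  · intro α hα
    rw [uIoc_of_le ha] at hα
    have h0 := hα.1.le
    rw [Real.norm_eq_abs]
    refine (Rk_abs_le h0 b).trans ?_
    have hc : Real.cosh α ≤ Real.cosh a := by
      rw [Real.cosh_le_cosh, abs_of_nonneg h0, abs_of_nonneg ha]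
      exact hα.2
    have hc0 := Real.cosh_pos α
    have h2 := hα.2
    gcongr

theorem Pk_abs_le' {a : ℝ} (ha : 0 ≤ a) (b : ℝ) :
    |Pk a b| ≤ 14 * a ^ 2 * Real.exp (2 * a) / (1 + b ^ 2) := by
  refine (Pk_abs_le ha b).trans ?_
  refine div_le_div_of_nonneg_right ?_ (by positivity)
  have h1 : Real.cosh a ≤ Real.exp a := by
    rw [Real.cosh_eq]
    have h2 : Real.exp (-a) ≤ Real.exp a := Real.exp_le_exp.2 (by linarith)
    linarith
  have h2 : 7 + a ^ 2 ≤ 7 * Real.exp a := by
    have := Real.quadratic_le_exp_of_nonneg ha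
    nlinarith
  have h3 : (7 + a ^ 2) * Real.cosh a ≤ 7 * Real.exp a * Real.exp a :=
    mul_le_mul h2 h1 (Real.cosh_pos a).le (by positivity)
  have h4 : Real.exp (2 * a) = Real.exp a * Real.exp a := by rw [← Real.exp_add]; ring_nf
  rw [h4]
  have h5 := mul_le_mul_of_nonneg_left h3 (sq_nonneg a)
  nlinarith

theorem Pk_abs_le'' {a : ℝ} (ha : 0 ≤ a) (b : ℝ) :
    |Pk a b| ≤ 76 * Real.exp (2 * a) / (1 + b ^ 2) := by
  refine (Pk_abs_le ha b).trans ?_
  refine div_le_div_of_nonneg_right ?_ (by positivity)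
  have h1 : Real.cosh a ≤ Real.exp a := by
    rw [Real.cosh_eq]
    have h2 : Real.exp (-a) ≤ Real.exp a := Real.exp_le_exp.2 (by linarith)
    linarith
  have h2 : a ^ 2 * (7 + a ^ 2) ≤ 38 * Real.exp a := by
    have h3 := Real.pow_div_factorial_le_exp a ha 2
    have h4 := Real.pow_div_factorial_le_exp a ha 4
    have f2 : (Nat.factorial 2 : ℝ) = 2 := by norm_num [Nat.factorial]
    have f4 : (Nat.factorial 4 : ℝ) = 24 := by norm_num [Nat.factorial]
    rw [f2] at h3
    rw [f4] at h4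
    nlinarith
  have h3 : a ^ 2 * (7 + a ^ 2) * Real.cosh a ≤ 38 * Real.exp a * Real.exp a :=
    mul_le_mul h2 h1 (Real.cosh_pos a).le (by positivity)
  have h4 : Real.exp (2 * a) = Real.exp a * Real.exp a := by rw [← Real.exp_add]; ring_nf
  rw [h4]
  linarith

/-! ### Sums over the zeros -/

theorem za_nonneg {X : ℝ} (hX : 0 < X) (ρ : ZS) : 0 ≤ za X ρ := by
  unfold za
  positivity

theorem za_le {X : ℝ} (hX : 0 < X) (ρ : ZS) : za X ρ ≤ X / 2 := by
  have hr := zs_re ρ
  have hv : |(ρ:ℂ).re - 1 / 2| ≤ 1 / 2 := by rw [abs_le]; constructor <;> linarith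
  unfold za
  nlinarith

theorem summable_exp {X : ℝ} (hX : 0 < X) (t : ℝ) :
    Summable fun ρ : ZS => mx ρ * (Real.exp (2 * za X ρ) / (1 + zb X t ρ ^ 2)) := by
  refine Summable.of_nonneg_of_le (fun ρ => mul_nonneg (mx_nonneg _) (by positivity)) (fun ρ => ?_)
    ((summable_inv hX t).mul_left (Real.exp X))
  have h1 : Real.exp (2 * za X ρ) ≤ Real.exp X := Real.exp_le_exp.2 (by linarith [za_le hX ρ])
  have hm := mx_nonneg (ρ : ℂ)
  calc mx ρ * (Real.exp (2 * za X ρ) / (1 + zb X t ρ ^ 2)) ≤ mx ρ * (Real.exp X / (1 + zb X t ρ ^ 2)) := by gcongr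
    _ = Real.exp X * (mx ρ * (1 / (1 + zb X t ρ ^ 2))) := by ring

theorem summable_Pk {X : ℝ} (hX : 0 < X) (t : ℝ) : Summable fun ρ : ZS => mx ρ * |Pk (za X ρ) (zb X t ρ)| := by
  refine Summable.of_nonneg_of_le (fun ρ => mul_nonneg (mx_nonneg _) (abs_nonneg _)) (fun ρ => ?_)
    ((summable_exp hX t).mul_left 76)
  calc mx ρ * |Pk (za X ρ) (zb X t ρ)| ≤ mx ρ * (76 * Real.exp (2 * za X ρ) / (1 + zb X t ρ ^ 2)) :=
        mul_le_mul_of_nonneg_left (Pk_abs_le'' (za_nonneg hX ρ) _) (mx_nonneg _)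
    _ = _ := by ring

/-- The edge term. -/
noncomputable def Edge (X t : ℝ) : ℝ := ∑' ρ : ZS, mx ρ * Pk (za X ρ) (zb X t ρ)

/-- Majorant of the edge term. -/
noncomputable def EdgeM (X t : ℝ) : ℝ := ∑' ρ : ZS, mx ρ * |Pk (za X ρ) (zb X t ρ)|

theorem summable_Pk' {X : ℝ} (hX : 0 < X) (t : ℝ) : Summable fun ρ : ZS => mx ρ * Pk (za X ρ) (zb X t ρ) := by
  refine Summable.of_norm_bounded (g := fun ρ : ZS => mx ρ * |Pk (za X ρ) (zb X t ρ)|) (summable_Pk hX t) fun ρ => ?_
  rw [Real.norm_eq_abs, abs_mul, abs_of_nonneg (mx_nonneg _)]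

theorem abs_Edge_le {X : ℝ} (hX : 0 < X) (t : ℝ) : |Edge X t| ≤ EdgeM X t := by
  unfold Edge EdgeM
  rw [← Real.norm_eq_abs]
  refine tsum_of_norm_bounded (summable_Pk hX t).hasSum fun ρ => ?_
  rw [Real.norm_eq_abs, abs_mul, abs_of_nonneg (mx_nonneg _)]

open Classical in
/-- The edge term is small: zeros near the line count with the square of their distance. -/
theorem EdgeM_le {X : ℝ} (hX : 0 < X) (t : ℝ) {y : ℝ} (hy1 : y ≤ 1) :
    EdgeM X t ≤ 104 * y ^ 2 * (∑' ρ : ZS, mx ρ * (if za X ρ < y then 1 / (1 + zb X t ρ ^ 2) else 0)) +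
      76 * ∑' ρ : ZS, mx ρ * (if za X ρ < y then 0 else Real.exp (2 * za X ρ) / (1 + zb X t ρ ^ 2)) := by
  have s1 : Summable fun ρ : ZS => mx ρ * (if za X ρ < y then 1 / (1 + zb X t ρ ^ 2) else 0) := by
    refine Summable.of_nonneg_of_le (fun ρ => mul_nonneg (mx_nonneg _) ?_) (fun ρ => ?_) (summable_inv hX t)
    · split_ifs <;> positivity
    · refine mul_le_mul_of_nonneg_left ?_ (mx_nonneg _)
      split_ifs
      · exact le_rfl
      · positivity
  have s2 : Summable fun ρ : ZS => mx ρ * (if za X ρ < y then 0 else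
      Real.exp (2 * za X ρ) / (1 + zb X t ρ ^ 2)) := by
    refine Summable.of_nonneg_of_le (fun ρ => mul_nonneg (mx_nonneg _) ?_) (fun ρ => ?_) (summable_exp hX t)
    · split_ifs <;> positivity
    · refine mul_le_mul_of_nonneg_left ?_ (mx_nonneg _)
      split_ifs
      · positivity
      · exact le_rfl
  unfold EdgeM
  rw [← tsum_mul_left, ← tsum_mul_left, ← (s1.mul_left _).tsum_add (s2.mul_left _)]
  refine Summable.tsum_le_tsum (fun ρ => ?_) (summable_Pk hX t) ((s1.mul_left _).add (s2.mul_left _))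
  have hm := mx_nonneg (ρ : ℂ)
  have ha := za_nonneg hX ρ
  by_cases h : za X ρ < y
  · simp only [if_pos h, mul_zero, add_zero]
    have h1 := Pk_abs_le' ha (zb X t ρ)
    have h2 : Real.exp (2 * za X ρ) ≤ 7.4 := by
      have e1 : Real.exp (2 * za X ρ) ≤ Real.exp 2 := Real.exp_le_exp.2 (by linarith)
      have e2 : Real.exp 2 = Real.exp 1 ^ 2 := by rw [← Real.exp_nat_mul]; norm_num
      have e3 := Real.exp_one_lt_d9
      have e4 := Real.exp_pos 1
      rw [e2] at e1
      nlinarith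
    have h3 : za X ρ ^ 2 ≤ y ^ 2 := pow_le_pow_left₀ ha h.le 2
    have h4 : 14 * za X ρ ^ 2 * Real.exp (2 * za X ρ) ≤ 104 * y ^ 2 := by
      have h5 : za X ρ ^ 2 * Real.exp (2 * za X ρ) ≤ y ^ 2 * 7.4 := mul_le_mul h3 h2 (Real.exp_pos _).le (sq_nonneg y)
      nlinarith [sq_nonneg y]
    calc mx ρ * |Pk (za X ρ) (zb X t ρ)| ≤ mx ρ * (104 * y ^ 2 / (1 + zb X t ρ ^ 2)) := by
          refine mul_le_mul_of_nonneg_left (h1.trans ?_) hm
          exact div_le_div_of_nonneg_right h4 (by positivity)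
      _ = _ := by ring
  · simp only [if_neg h, mul_zero, zero_add]
    calc mx ρ * |Pk (za X ρ) (zb X t ρ)| ≤ mx ρ * (76 * Real.exp (2 * za X ρ) / (1 + zb X t ρ ^ 2)) :=
          mul_le_mul_of_nonneg_left (Pk_abs_le'' ha _) hm
      _ = _ := by ring

open Classical in
/-- The same, kernel scale `M` in the units of the spacing: `X = L / M`. -/
theorem EdgeM_le_log {L M Y : ℝ} (hL : 0 < L) (hM : 0 < M) (hY : Y ≤ M) (t : ℝ) :
    EdgeM (L / M) t ≤
      104 * (Y / M) ^ 2 * (∑' ρ : ZS, mx ρ * (if L * |(ρ : ℂ).re - 1 / 2| < Y then 1 / (1 + zb (L / M) t ρ ^ 2) else 0)) +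
      76 * ∑' ρ : ZS, mx ρ * (if L * |(ρ : ℂ).re - 1 / 2| < Y then 0 else
        Real.exp (2 * za (L / M) ρ) / (1 + zb (L / M) t ρ ^ 2)) := by
  have hX : 0 < L / M := by positivity
  have h := EdgeM_le hX t (y := Y / M) (by rw [div_le_one hM]; exact hY)
  have hiff : ∀ ρ : ZS, za (L / M) ρ < Y / M ↔ L * |(ρ : ℂ).re - 1 / 2| < Y := by
    intro ρ
    unfold za
    rw [lt_div_iff₀ hM]
    have : L / M * |(ρ : ℂ).re - 1 / 2| * M = L * |(ρ : ℂ).re - 1 / 2| := by field_simp
    rw [this]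
  simp only [hiff] at h
  exact h

theorem EdgeM_le_near_far {T c Y : ℝ} (hT : 1 < T) (hc : 0 < c) (hYc : Y ≤ c) (t : ℝ) :
    EdgeM (XX T c) t ≤ 104 * (Y / c) ^ 2 * near T c Y t + 76 * far T c Y t := by
  have hL : 0 < Real.log T := Real.log_pos hT
  have hX : 0 < XX T c := by unfold XX; positivity
  have h := EdgeM_le hX t (y := Y / c) (by rw [div_le_one hc]; exact hYc)
  have hiff : ∀ ρ : ZS, za (XX T c) ρ < Y / c ↔ Real.log T * |(ρ : ℂ).re - 1 / 2| < Y := by
    intro ρ
    unfold za XX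
    rw [lt_div_iff₀ hc]
    have : Real.log T / c * |(ρ : ℂ).re - 1 / 2| * c = Real.log T * |(ρ : ℂ).re - 1 / 2| := by field_simp
    rw [this]
  unfold near far
  simp only [hiff] at h
  exact h

/-! ### The integrated explicit formula -/

theorem Pk_sub (a b c : ℝ) : Pk a c - Pk a b = ∫ x in b..c, (qk a x - qk 0 x) := by
  unfold Pk
  have hc : Continuous fun x => qk a x - qk 0 x := (qk_cont a).sub (qk_cont 0)
  exact intervalIntegral.integral_interval_sub_left (hc.intervalIntegrable _ _) (hc.intervalIntegrable _ _)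

theorem term_int {X : ℝ} (hX : 0 < X) (t1 t2 : ℝ) (ρ : ZS) :
    (∫ w in t1..t2, mx ρ * (qk 0 (zb X w ρ) - qk (za X ρ) (zb X w ρ))) =
      -(1 / X) * (mx ρ * (Pk (za X ρ) (zb X t2 ρ) - Pk (za X ρ) (zb X t1 ρ))) := by
  have h := intervalIntegral.integral_comp_mul_sub (a := t1) (b := t2)
    (fun x => qk 0 x - qk (za X ρ) x) hX.ne' (X * (ρ : ℂ).im)
  rw [intervalIntegral.integral_const_mul]
  have e1 : (∫ w in t1..t2, (qk 0 (zb X w ρ) - qk (za X ρ) (zb X w ρ))) =
      ∫ w in t1..t2, (fun x => qk 0 x - qk (za X ρ) x) (X * w - X * (ρ : ℂ).im) := by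
    refine intervalIntegral.integral_congr fun w _ => ?_
    simp only [zb]
    rw [mul_sub]
  have e2 : (∫ x in (X * t1 - X * (ρ : ℂ).im)..(X * t2 - X * (ρ : ℂ).im), (qk 0 x - qk (za X ρ) x)) =
      -(Pk (za X ρ) (zb X t2 ρ) - Pk (za X ρ) (zb X t1 ρ)) := by
    rw [Pk_sub, ← intervalIntegral.integral_neg]
    unfold zb
    rw [mul_sub, mul_sub]
    refine intervalIntegral.integral_congr fun x _ => ?_
    ring
  rw [e1, h, e2, smul_eq_mul]
  field_simp

private lemma inv_shift (x y : ℝ) : 1 / (1 + (x + y) ^ 2) ≤ 2 * (1 + y ^ 2) * (1 / (1 + x ^ 2)) := by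
  rw [← mul_div_assoc, mul_one, div_le_div_iff₀ (by positivity) (by positivity)]
  nlinarith [sq_nonneg (x + 2 * y), sq_nonneg (x + y), sq_nonneg ((x + y) * y), sq_nonneg x, sq_nonneg y]

/-- Integrated over a window, the difference between the smooth count and the explicit formula is a difference of
two edge terms. -/
theorem int_window {X : ℝ} (hX : 0 < X) (t1 t2 : ℝ) :
    (∫ w in t1..t2, (Helper69.UG.NX X w - (MM X w - SS X w))) = -(1 / X) * (Edge X t2 - Edge X t1) := by
  have hS : HasSum (fun ρ : ZS => ∫ w in t1..t2, mx ρ * (qk 0 (zb X w ρ) - qk (za X ρ) (zb X w ρ)))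
      (∫ w in t1..t2, (Helper69.UG.NX X w - (MM X w - SS X w))) := by
    set B : ℝ := 3 * (X / 2) ^ 2 * Real.cosh (X / 2) with hB
    set R : ℝ := 2 * (1 + (X * (t2 - t1)) ^ 2) with hR
    refine intervalIntegral.hasSum_integral_of_dominated_convergence
      (fun ρ _ => B * R * (mx ρ * (1 / (1 + zb X t1 ρ ^ 2)))) (fun ρ => ?_) (fun ρ => ?_) ?_ ?_ ?_
    · apply Continuous.aestronglyMeasurable
      refine continuous_const.mul (((qk_cont 0).comp ?_).sub ((qk_cont _).comp ?_))
      · unfold zb; fun_prop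
      · unfold zb; fun_prop
    · refine Eventually.of_forall fun w hw => ?_
      have hm := mx_nonneg (ρ : ℂ)
      have ha := za_nonneg hX ρ
      have ha2 := za_le hX ρ
      rw [Real.norm_eq_abs, abs_mul, abs_of_nonneg hm, abs_sub_comm]
      have h1 := qk_diff3 (za X ρ) (zb X w ρ)
      have h2 : Real.cosh (za X ρ) ≤ Real.cosh (X / 2) := by
        rw [Real.cosh_le_cosh, abs_of_nonneg ha, abs_of_nonneg (by positivity)]
        exact ha2
      have h3 : 3 * za X ρ ^ 2 * Real.cosh (za X ρ) / (1 + zb X w ρ ^ 2) ≤ B * (1 / (1 + zb X w ρ ^ 2)) := by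
        rw [hB, ← mul_div_assoc, mul_one]
        have := Real.cosh_pos (za X ρ)
        gcongr
      have h4 : 1 / (1 + zb X w ρ ^ 2) ≤ R * (1 / (1 + zb X t1 ρ ^ 2)) := by
        have h5 := inv_shift (zb X t1 ρ) (X * (w - t1))
        have h6 : zb X t1 ρ + X * (w - t1) = zb X w ρ := by unfold zb; ring
        rw [h6] at h5
        refine h5.trans (mul_le_mul_of_nonneg_right ?_ (by positivity))
        rw [hR]
        have h7 : (X * (w - t1)) ^ 2 ≤ (X * (t2 - t1)) ^ 2 := by
          rw [mul_pow, mul_pow]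
          refine mul_le_mul_of_nonneg_left ?_ (sq_nonneg X)
          rcases le_total t1 t2 with h | h
          · rw [uIoc_of_le h] at hw
            nlinarith [hw.1, hw.2]
          · rw [uIoc_of_ge h] at hw
            nlinarith [hw.1, hw.2]
        linarith
      have hB0 : 0 ≤ B := by rw [hB]; positivity
      calc mx ρ * |qk (za X ρ) (zb X w ρ) - qk 0 (zb X w ρ)| ≤ mx ρ * (B * (R * (1 / (1 + zb X t1 ρ ^ 2)))) := by
            refine mul_le_mul_of_nonneg_left (h1.trans (h3.trans ?_)) hm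
            exact mul_le_mul_of_nonneg_left h4 hB0
        _ = _ := by ring
    · exact Eventually.of_forall fun w _ => (summable_inv hX t1).mul_left _
    · exact intervalIntegrable_const
    · refine Eventually.of_forall fun w _ => ?_
      have h1 := (summable_q0 hX w).hasSum
      have h2 := explicit_q hX w
      have h3 := h1.sub h2
      refine h3.congr_fun fun ρ => ?_
      ring
  have hT : HasSum (fun ρ : ZS => ∫ w in t1..t2, mx ρ * (qk 0 (zb X w ρ) - qk (za X ρ) (zb X w ρ)))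
      (-(1 / X) * (Edge X t2 - Edge X t1)) := by
    have h1 := ((summable_Pk' hX t2).hasSum.sub (summable_Pk' hX t1).hasSum).mul_left (-(1 / X))
    refine h1.congr_fun fun ρ => ?_
    rw [term_int hX]
    ring
  exact hS.unique hT

theorem int_window_abs {X : ℝ} (hX : 0 < X) (t1 t2 : ℝ) :
    |∫ w in t1..t2, (Helper69.UG.NX X w - (MM X w - SS X w))| ≤ (EdgeM X t1 + EdgeM X t2) / X := by
  rw [int_window hX, abs_mul, abs_neg, abs_of_pos (by positivity)]
  have h1 := abs_Edge_le hX t1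
  have h2 := abs_Edge_le hX t2
  have h3 := abs_sub (Edge X t2) (Edge X t1)
  have h4 : |Edge X t2 - Edge X t1| ≤ EdgeM X t1 + EdgeM X t2 := by linarith
  rw [div_eq_inv_mul (EdgeM X t1 + EdgeM X t2), ← one_div X]
  exact mul_le_mul_of_nonneg_left h4 (by positivity)

/-- Window average, edge form. -/
theorem win_edge {X : ℝ} (hX : 0 < X) (t H : ℝ) :
    |X / (2 * Real.pi) * ∫ w in (-H)..H, (Helper69.UG.NX X (t + w) - (MM X (t + w) - SS X (t + w)))| ≤
      (EdgeM X (t - H) + EdgeM X (t + H)) / (2 * Real.pi) := by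
  have h1 : (∫ w in (-H)..H, (Helper69.UG.NX X (t + w) - (MM X (t + w) - SS X (t + w)))) =
      ∫ w in (t - H)..(t + H), (Helper69.UG.NX X w - (MM X w - SS X w)) := by
    have := intervalIntegral.integral_comp_add_left (a := -H) (b := H)
      (fun w => Helper69.UG.NX X w - (MM X w - SS X w)) t
    rw [this, ← sub_eq_add_neg]
  have hp := Real.pi_pos
  rw [h1, abs_mul, abs_of_pos (by positivity)]
  have h2 := mul_le_mul_of_nonneg_left (int_window_abs hX (t - H) (t + H)) (by positivity : 0 ≤ X / (2 * Real.pi))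
  refine h2.trans (le_of_eq ?_)
  field_simp

theorem EdgeM_nonneg (X t : ℝ) : 0 ≤ EdgeM X t :=
  tsum_nonneg fun _ => mul_nonneg (mx_nonneg _) (abs_nonneg _)

theorem Pk_cont (a : ℝ) : Continuous (Pk a) := by
  have hc : Continuous fun x => qk a x - qk 0 x := (qk_cont a).sub (qk_cont 0)
  exact intervalIntegral.continuous_primitive (fun _ _ => hc.intervalIntegrable _ _) 0

theorem EdgeM_meas {X : ℝ} (hX : 0 < X) : Measurable (EdgeM X) := by
  have hc : ∀ ρ : ZS, Continuous fun t => mx ρ * |Pk (za X ρ) (zb X t ρ)| := by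
    intro ρ
    refine continuous_const.mul (((Pk_cont _).comp ?_).abs)
    unfold zb
    fun_prop
  refine measurable_of_tendsto_metrizable' (atTop : Filter (Finset ZS))
    (f := fun (s : Finset ZS) t => ∑ ρ ∈ s, mx ρ * |Pk (za X ρ) (zb X t ρ)|) (fun s => ?_) ?_
  · exact (continuous_finsetSum s fun ρ _ => hc ρ).measurable
  · rw [tendsto_pi_nhds]
    intro t
    exact (summable_Pk hX t).hasSum

end Pool.Agent.Helper24.WS
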