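import Pool.Agent.Helper24.UV.Red
import Pool.Agent.Helper93.UV.Final2
import Pool.Agent.Helper69.UW.Defs

/-!
# WS: moderate deviations, from the measure of the windows to the ordinates
-/

set_option autoImplicit false
open MeasureTheory Set Filter Topology
open Pool.Agent.Helper57.PC Pool.Agent.Helper93.UG

namespace Pool.Agent.Helper24.WS

/-- Measure statement, moderate deviations, clusters. -/
def MpW : Prop := ∀ ε : ℝ, 0 < ε → ∃ C η c₀ c₁ T₀ : ℝ, 0 < C ∧ 0 < η ∧ 1 ≤ c₀ ∧ 0 < c₁ ∧ ∀ T : ℝ, T₀ ≤ T → ∀ c : ℝ, c₀ ≤ c →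
  c ≤ c₁ * (Real.log T / Real.log (Real.log T)) → ∀ V : ℝ, C * Real.log c ≤ V → V ≤ η * √c →
    ENNReal.ofReal (Real.exp (-((Real.pi ^ 2 / 2 + ε) * (V ^ 2 / Real.log (c / V ^ 2)))) * T) ≤
      volume {t : ℝ | T ≤ t ∧ t ≤ 2 * T ∧ c + V ≤ (zc (Ico t (t + c * sp T)) : ℝ)}

/-- Measure statement, moderate deviations, long gaps; there is an ordinate in `[t - B c sp T, t)`. -/
def MmW : Prop := ∀ ε : ℝ, 0 < ε → ∃ B C η c₀ c₁ T₀ : ℝ, 0 < B ∧ 0 < C ∧ 0 < η ∧ 1 ≤ c₀ ∧ 0 < c₁ ∧ ∀ T : ℝ, T₀ ≤ T →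
  ∀ c : ℝ, c₀ ≤ c → c ≤ c₁ * (Real.log T / Real.log (Real.log T)) → ∀ V : ℝ, C * Real.log c ≤ V → V ≤ η * √c →
    ENNReal.ofReal (Real.exp (-((Real.pi ^ 2 / 2 + ε) * (V ^ 2 / Real.log (c / V ^ 2)))) * T) ≤
      volume {t : ℝ | T ≤ t ∧ t ≤ 2 * T ∧ (zc (Ico t (t + c * sp T)) : ℝ) ≤ c - V ∧
        ∃ g : ℝ, IsOrd g ∧ t - B * c * sp T ≤ g ∧ g < t}

/-- Moderate deviations of the `r`-gaps. -/
def FinalW : Prop := ∀ ε : ℝ, 0 < ε → ∃ (r₀ : ℕ) (C η δ T₀ : ℝ), 0 < C ∧ 0 < η ∧ 0 < δ ∧ ∀ T : ℝ, T₀ ≤ T → ∀ r : ℕ,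
  r₀ ≤ r → (r : ℝ) ≤ δ * (Real.log T / Real.log (Real.log T)) → ∀ V : ℝ, C * Real.log r ≤ V → V ≤ η * √r →
    Real.exp (-((Real.pi ^ 2 / 2 + ε) * (V ^ 2 / Real.log (r / V ^ 2)))) * (T * Real.log T) ≤ ((Glong T (r + V) r).ncard : ℝ) ∧
    Real.exp (-((Real.pi ^ 2 / 2 + ε) * (V ^ 2 / Real.log (r / V ^ 2)))) * (T * Real.log T) ≤ ((Gshort T (r - V) r).ncard : ℝ)

/-- the numbers -/
lemma coreW {E' E D F T : ℝ} {n : ℕ} {S : Set ℝ} (hT : 0 < T) (hL : 0 < Real.log T) (hF : 0 < F) (hD0 : 0 < D)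
    (hD : D ≤ F * sp T) (hE : 4 * Real.pi * F ≤ Real.exp (E - E')) (hbig : 4 * Real.pi * F ≤ Real.exp (-E') * (T * Real.log T))
    (h1 : ENNReal.ofReal (Real.exp (-E') * T) ≤ volume S)
    (h2 : volume S ≤ ENNReal.ofReal (D * ((n : ℝ) + 1))) :
    Real.exp (-E) * (T * Real.log T) ≤ n := by
  have hpi := Real.pi_pos
  have hn0 : (0 : ℝ) ≤ n := Nat.cast_nonneg n
  have h3 : Real.exp (-E') * T ≤ D * ((n : ℝ) + 1) :=
    (ENNReal.ofReal_le_ofReal_iff (by positivity)).1 (h1.trans h2)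
  have h4 : Real.exp (-E') * (T * Real.log T) ≤ 2 * Real.pi * F * ((n : ℝ) + 1) := by
    have h5 : D * ((n : ℝ) + 1) ≤ F * sp T * ((n : ℝ) + 1) := mul_le_mul_of_nonneg_right hD (by positivity)
    have h6 : sp T * Real.log T = 2 * Real.pi := by
      unfold sp
      field_simp
    calc Real.exp (-E') * (T * Real.log T) = (Real.exp (-E') * T) * Real.log T := by ring
      _ ≤ (F * sp T * ((n : ℝ) + 1)) * Real.log T := mul_le_mul_of_nonneg_right (h3.trans h5) hL.le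
      _ = F * (sp T * Real.log T) * ((n : ℝ) + 1) := by ring
      _ = 2 * Real.pi * F * ((n : ℝ) + 1) := by rw [h6]; ring
  set X : ℝ := Real.exp (-E') * (T * Real.log T) with hX
  have h7 : Real.exp (-E) * (T * Real.log T) * (4 * Real.pi * F) ≤ X := by
    have h8 : Real.exp (-E) * (T * Real.log T) * (4 * Real.pi * F) ≤
        Real.exp (-E) * (T * Real.log T) * Real.exp (E - E') := mul_le_mul_of_nonneg_left hE (by positivity)
    refine h8.trans (le_of_eq ?_)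
    rw [hX, show Real.exp (-E) * (T * Real.log T) * Real.exp (E - E') =
      (Real.exp (-E) * Real.exp (E - E')) * (T * Real.log T) by ring, ← Real.exp_add]
    congr 2
    ring
  have h9 : 0 < 2 * Real.pi * F := by positivity
  nlinarith

/-- `4 π F ≤ e^(-E') T log T` for large `T`. -/
lemma bigT {E' F T : ℝ} {r : ℕ} (hT : 0 < T) (hE' : E' ≤ 6 * (r : ℝ)) (hF : F ≤ 2 * r)
    (hr : 1 ≤ r) {G : ℝ} (hG : 1 ≤ G) (hL : 8 * Real.pi * G ≤ Real.log T) (hrL : 8 * (r : ℝ) ≤ Real.log T) :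
    4 * Real.pi * (G * F) ≤ Real.exp (-E') * (T * Real.log T) := by
  have hpi := Real.pi_pos
  have hr1 : (1 : ℝ) ≤ r := by exact_mod_cast hr
  have h1 : (2 : ℝ) * r ≤ Real.exp (-E') * T := by
    have h2 : Real.exp (-E') * T = Real.exp (Real.log T - E') := by
      rw [sub_eq_add_neg, Real.exp_add, Real.exp_log hT, mul_comm]
    rw [h2]
    have h3 := Real.add_one_le_exp (Real.log T - E')
    linarith
  calc 4 * Real.pi * (G * F) ≤ 4 * Real.pi * (G * (2 * r)) := by gcongr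
    _ ≤ (2 * (r : ℝ)) * (8 * Real.pi * G) := by
        have : 0 ≤ Real.pi * G * r := by positivity
        nlinarith
    _ ≤ (Real.exp (-E') * T) * Real.log T := mul_le_mul h1 hL (by positivity) (by positivity)
    _ = Real.exp (-E') * (T * Real.log T) := by ring

/-- the exponents: `κ = π²/2` -/
lemma expo {ε a κ r c V : ℝ} (hε : 0 < ε) (hε1 : ε ≤ 1) (ha : a = ε / 100) (hκ : 0 ≤ κ) (hκ5 : κ ≤ 5)
    (hr : 0 < r) (hV : 0 < V) (hc : r / 2 ≤ c) (hl : 202 / ε ≤ Real.log (r / V ^ 2)) :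
    (κ + ε / 4) * (((1 + a) * V) ^ 2 / Real.log (c / ((1 + a) * V) ^ 2)) ≤
      (κ + ε / 2) * (V ^ 2 / Real.log (r / V ^ 2)) := by
  have ha0 : 0 < a := by rw [ha]; positivity
  have ha1 : a ≤ 1 / 100 := by rw [ha]; linarith
  have hc0 : 0 < c := by linarith
  set l : ℝ := Real.log (r / V ^ 2) with hlD
  have hl0 : 202 ≤ l := by
    refine le_trans ?_ hl
    rw [le_div_iff₀ hε]
    linarith
  have h1 : l - 1 ≤ Real.log (c / ((1 + a) * V) ^ 2) := by
    have h2 : l = Real.log r - Real.log (V ^ 2) := by rw [hlD, Real.log_div (by positivity) (by positivity)]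
    have h3 : Real.log (c / ((1 + a) * V) ^ 2) = Real.log c - (Real.log ((1 + a) ^ 2) + Real.log (V ^ 2)) := by
      rw [Real.log_div (by positivity) (by positivity), mul_pow, Real.log_mul (by positivity) (by positivity)]
    have h4 : Real.log r - Real.log 2 ≤ Real.log c := by
      rw [← Real.log_div (by positivity) (by norm_num)]
      exact Real.log_le_log (by positivity) hc
    have h5 : Real.log ((1 + a) ^ 2) ≤ 1 / 10 := by
      have h6 : (1 + a) ^ 2 ≤ 1 + 1 / 10 := by nlinarith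
      have h7 := Real.log_le_log (by positivity) h6
      have h8 := Real.log_le_sub_one_of_pos (by norm_num : (0:ℝ) < 1 + 1 / 10)
      linarith
    have h6 := Real.log_two_lt_d9
    rw [h3, h2]
    linarith
  have h2 : 0 < l - 1 := by linarith
  have h3 : ((1 + a) * V) ^ 2 / Real.log (c / ((1 + a) * V) ^ 2) ≤ ((1 + a) * V) ^ 2 / (l - 1) :=
    div_le_div_of_nonneg_left (by positivity) h2 h1
  have h4 : ((1 + a) * V) ^ 2 / (l - 1) ≤ (1 + a) ^ 3 * (V ^ 2 / l) := by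
    rw [div_le_iff₀ h2]
    have h5 : l ≤ (1 + a) * (l - 1) := by
      have h6 : 202 / ε * a = 202 / 100 := by rw [ha]; field_simp
      have h7 : 202 / ε * a ≤ l * a := mul_le_mul_of_nonneg_right hl ha0.le
      nlinarith
    have h8 : (1 + a) ^ 3 * (V ^ 2 / l) * (l - 1) = (1 + a) ^ 2 * V ^ 2 * (((1 + a) * (l - 1)) / l) := by
      field_simp
    rw [h8]
    have h9 : 1 ≤ ((1 + a) * (l - 1)) / l := by
      rw [le_div_iff₀ (by linarith)]
      linarith
    have h10 : 0 ≤ (1 + a) ^ 2 * V ^ 2 := by positivity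
    calc ((1 + a) * V) ^ 2 = (1 + a) ^ 2 * V ^ 2 * 1 := by ring
      _ ≤ _ := mul_le_mul_of_nonneg_left h9 h10
  have h5 : (κ + ε / 4) * (1 + a) ^ 3 ≤ κ + ε / 2 := by
    have h6 : (1 + a) ^ 3 ≤ 1 + 4 * a := by
      have e1 : a ^ 2 ≤ 1 / 100 * a := by
        rw [pow_two]
        exact mul_le_mul_of_nonneg_right ha1 ha0.le
      have e2 : a ^ 3 ≤ 1 / 100 * a := by
        have e3 : a ^ 3 = a ^ 2 * a := by ring
        have e4 : a ^ 2 ≤ 1 / 100 := by linarith
        rw [e3]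
        exact mul_le_mul_of_nonneg_right e4 ha0.le
      have e5 : (1 + a) ^ 3 = 1 + 3 * a + 3 * a ^ 2 + a ^ 3 := by ring
      linarith
    have h7 : (κ + ε / 4) * (4 * a) ≤ ε / 4 := by
      rw [ha]
      nlinarith
    have h8 : (κ + ε / 4) * (1 + a) ^ 3 ≤ (κ + ε / 4) * (1 + 4 * a) := mul_le_mul_of_nonneg_left h6 (by positivity)
    linarith
  have h6 : 0 ≤ V ^ 2 / l := by
    have : 0 < l := by linarith
    positivity
  calc (κ + ε / 4) * (((1 + a) * V) ^ 2 / Real.log (c / ((1 + a) * V) ^ 2))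
      ≤ (κ + ε / 4) * ((1 + a) ^ 3 * (V ^ 2 / l)) := mul_le_mul_of_nonneg_left (h3.trans h4) (by positivity)
    _ = ((κ + ε / 4) * (1 + a) ^ 3) * (V ^ 2 / l) := by ring
    _ ≤ (κ + ε / 2) * (V ^ 2 / l) := mul_le_mul_of_nonneg_right h5 h6

/-- the gain -/
lemma gain {ε κ r V C G F : ℝ} (hε : 0 < ε) (hr : 1 ≤ r) (hG : 1 ≤ G) (hF : F ≤ 2 * r)
    (hC : 4 / ε ≤ C ^ 2) (hC1 : 1 ≤ C) (hlr : 1 ≤ Real.log r) (hV : C * Real.log r ≤ V) (hl : 1 ≤ Real.log (r / V ^ 2))
    (hrG : 8 * Real.pi * G ≤ r) :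
    4 * Real.pi * (G * F) ≤ Real.exp ((κ + ε) * (V ^ 2 / Real.log (r / V ^ 2)) - (κ + ε / 2) * (V ^ 2 / Real.log (r / V ^ 2))) := by
  have hpi := Real.pi_pos
  have hV0 : 1 ≤ V := by nlinarith
  set l : ℝ := Real.log (r / V ^ 2) with hlD
  have h1 : l ≤ Real.log r := by
    rw [hlD]
    apply Real.log_le_log (by positivity)
    exact div_le_self (by linarith) (by nlinarith)
  have h2 : C ^ 2 * Real.log r ≤ V ^ 2 / l := by
    rw [le_div_iff₀ (by linarith)]
    calc C ^ 2 * Real.log r * l ≤ C ^ 2 * Real.log r * Real.log r := mul_le_mul_of_nonneg_left h1 (by positivity)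
      _ = (C * Real.log r) ^ 2 := by ring
      _ ≤ V ^ 2 := pow_le_pow_left₀ (by positivity) hV 2
  have h3 : 2 * Real.log r ≤ ε / 2 * (V ^ 2 / l) := by
    have h4 : 4 / ε * Real.log r ≤ V ^ 2 / l := (mul_le_mul_of_nonneg_right hC (by linarith)).trans h2
    calc 2 * Real.log r = ε / 2 * (4 / ε * Real.log r) := by field_simp; ring
      _ ≤ _ := mul_le_mul_of_nonneg_left h4 (by positivity)
  have h4 : (κ + ε) * (V ^ 2 / l) - (κ + ε / 2) * (V ^ 2 / l) = ε / 2 * (V ^ 2 / l) := by ring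
  rw [h4]
  have h5 : r ^ 2 ≤ Real.exp (ε / 2 * (V ^ 2 / l)) := by
    have h6 : r ^ 2 = Real.exp (2 * Real.log r) := by
      rw [mul_comm, Real.exp_mul, Real.exp_log (by linarith)]
      norm_num
    rw [h6]
    exact Real.exp_le_exp.2 h3
  refine le_trans ?_ h5
  calc 4 * Real.pi * (G * F) ≤ 4 * Real.pi * (G * (2 * r)) := by gcongr
    _ = (8 * Real.pi * G) * r := by ring
    _ ≤ r * r := mul_le_mul_of_nonneg_right hrG (by linarith)
    _ = r ^ 2 := by ring

/-- elementary facts about the range -/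
lemma range_facts {η C r V : ℝ} (hη : 0 < η) (hη1 : η ≤ 1 / 4) (hC1 : 1 ≤ C) (hr : 3 ≤ r) (hV1 : C * Real.log r ≤ V)
    (hV2 : V ≤ η * √r) : 1 ≤ Real.log r ∧ 1 ≤ V ∧ V ≤ r / 4 ∧ 2 * Real.log (1 / η) ≤ Real.log (r / V ^ 2) ∧ V ^ 2 ≤ r := by
  have h1 : 1 ≤ Real.log r := by
    rw [Real.le_log_iff_exp_le (by linarith)]
    have := Real.exp_one_lt_d9
    linarith
  have h2 : 1 ≤ V := by nlinarith
  have h3 : √r ≤ r := by
    rw [Real.sqrt_le_left (by linarith)]
    nlinarith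
  have hs := Real.sqrt_nonneg r
  have h4 : V ≤ r / 4 := by nlinarith
  have h5 : V ^ 2 ≤ η ^ 2 * r := by
    calc V ^ 2 ≤ (η * √r) ^ 2 := pow_le_pow_left₀ (by linarith) hV2 2
      _ = η ^ 2 * r := by rw [mul_pow, Real.sq_sqrt (by linarith)]
  refine ⟨h1, h2, h4, ?_, ?_⟩
  · have h6 : 2 * Real.log (1 / η) = Real.log ((1 / η) ^ 2) := by rw [Real.log_pow]; norm_num
    rw [h6]
    apply Real.log_le_log (by positivity)
    rw [div_pow, one_pow, div_le_div_iff₀ (by positivity) (by positivity)]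
    linarith
  · have : η ^ 2 ≤ 1 := by nlinarith
    nlinarith

theorem finalW_of_M (hp : MpW) (hm : MmW) : FinalW := by
  intro ε₀ hε₀
  set ε : ℝ := min ε₀ 1 with hε
  have hε0 : 0 < ε := by positivity
  have hε1 : ε ≤ 1 := min_le_right _ _
  have hεε : ε ≤ ε₀ := min_le_left _ _
  obtain ⟨C₁, η₁, a₀, a₁, T₁, hC₁, hη₁, ha₀, ha₁, H₁⟩ := hp (ε / 4) (by positivity)
  obtain ⟨B, C₂, η₂, b₀, b₁, T₂, hB, hC₂, hη₂, hb₀, hb₁, H₂⟩ := hm (ε / 4) (by positivity)
  have hpi := Real.pi_pos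
  have hpi4 : Real.pi ^ 2 / 2 ≤ 5 := by nlinarith [Real.pi_lt_d2]
  set κ : ℝ := Real.pi ^ 2 / 2 with hκ
  have hκ0 : 0 ≤ κ := by positivity
  set a : ℝ := ε / 100 with ha
  have ha0 : 0 < a := by positivity
  have ha1 : a ≤ 1 / 100 := by rw [ha]; linarith
  set G : ℝ := B + 1 with hG
  have hG1 : 1 ≤ G := by linarith
  set C : ℝ := max (2 * max C₁ C₂) (max 1 (2 / ε)) with hC
  have hCa : 2 * C₁ ≤ C := (mul_le_mul_of_nonneg_left (le_max_left _ _) (by norm_num)).trans (le_max_left _ _)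
  have hCb : 2 * C₂ ≤ C := (mul_le_mul_of_nonneg_left (le_max_right _ _) (by norm_num)).trans (le_max_left _ _)
  have hC1 : 1 ≤ C := (le_max_left _ _).trans (le_max_right _ _)
  have hC2 : 2 / ε ≤ C := (le_max_right _ _).trans (le_max_right _ _)
  have hCsq : 4 / ε ≤ C ^ 2 := by
    have h1 : (2 / ε) ^ 2 ≤ C ^ 2 := pow_le_pow_left₀ (by positivity) hC2 2
    refine le_trans ?_ h1
    rw [div_pow, div_le_div_iff₀ (by positivity) (by positivity)]
    have h2 : ε * ε ≤ ε * 1 := mul_le_mul_of_nonneg_left hε1 hε0.le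
    linarith
  set η : ℝ := min (min (η₁ / 4) (η₂ / 4)) (min (1 / 4) (Real.exp (-(101 / ε)))) with hη
  have hη0 : 0 < η := by positivity
  have hηa : η ≤ η₁ / 4 := (min_le_left _ _).trans (min_le_left _ _)
  have hηb : η ≤ η₂ / 4 := (min_le_left _ _).trans (min_le_right _ _)
  have hη4 : η ≤ 1 / 4 := (min_le_right _ _).trans (min_le_left _ _)
  have hηe : η ≤ Real.exp (-(101 / ε)) := (min_le_right _ _).trans (min_le_right _ _)
  have hηl : 202 / ε ≤ 2 * Real.log (1 / η) := by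
    have h1 : Real.log η ≤ -(101 / ε) := by
      rw [← Real.log_exp (-(101 / ε))]
      exact Real.log_le_log hη0 hηe
    rw [one_div, Real.log_inv]
    have h2 : 202 / ε = 2 * (101 / ε) := by ring
    linarith
  set δ : ℝ := min (1 / 8) (min (a₁ / 2) (b₁ / 2)) with hδ
  have hδ0 : 0 < δ := by positivity
  have hδ8 : δ ≤ 1 / 8 := min_le_left _ _
  have hδa : 2 * δ ≤ a₁ := by
    have : δ ≤ a₁ / 2 := (min_le_right _ _).trans (min_le_left _ _)
    linarith
  have hδb : 2 * δ ≤ b₁ := by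
    have : δ ≤ b₁ / 2 := (min_le_right _ _).trans (min_le_right _ _)
    linarith
  refine ⟨⌈2 * max a₀ b₀⌉₊ + 3 + ⌈8 * Real.pi * G⌉₊, C, η, δ,
    max (max T₁ T₂) (Real.exp (Real.exp (8 * Real.pi * G))), by linarith, hη0, hδ0, ?_⟩
  intro T hT r hr hrT V hV1 hV2
  have hT1 : T₁ ≤ T := (le_max_left _ _).trans ((le_max_left _ _).trans hT)
  have hT2 : T₂ ≤ T := (le_max_right _ _).trans ((le_max_left _ _).trans hT)
  have hT3 : Real.exp (Real.exp (8 * Real.pi * G)) ≤ T := (le_max_right _ _).trans hT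
  have hT0 : 0 < T := lt_of_lt_of_le (Real.exp_pos _) hT3
  have hg0 : 1 ≤ 8 * Real.pi * G := by
    have h1 : 8 * Real.pi * 1 ≤ 8 * Real.pi * G := mul_le_mul_of_nonneg_left hG1 (by positivity)
    linarith [Real.pi_gt_three]
  have hL1 : Real.exp (8 * Real.pi * G) ≤ Real.log T := (Real.le_log_iff_exp_le hT0).2 hT3
  have hL2 : 8 * Real.pi * G ≤ Real.log T := by
    have := Real.add_one_le_exp (8 * Real.pi * G)
    linarith
  have hL0 : 0 < Real.log T := by linarith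
  have hLL : 8 * Real.pi * G ≤ Real.log (Real.log T) := (Real.le_log_iff_exp_le hL0).2 hL1
  have hLL1 : 1 ≤ Real.log (Real.log T) := by linarith
  have hTe : Real.exp 1 ≤ T := by
    rw [← Real.le_log_iff_exp_le hT0]
    linarith
  have hq : 0 < Real.log T / Real.log (Real.log T) := by positivity
  have hq2 : Real.log T / Real.log (Real.log T) ≤ Real.log T := div_le_self hL0.le hLL1
  have hsp := Pool.Agent.Helper56.UG.sp_pos hTe
  have hr3' : 3 ≤ r := by omega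
  have hr1' : 1 ≤ r := by omega
  have hr3 : (3 : ℝ) ≤ r := by exact_mod_cast hr3'
  have hr1 : (1 : ℝ) ≤ r := by linarith
  have hr2 : 2 * max a₀ b₀ ≤ r := (Nat.le_ceil _).trans (by exact_mod_cast (by omega : ⌈2 * max a₀ b₀⌉₊ ≤ r))
  have hrG : 8 * Real.pi * G ≤ r := (Nat.le_ceil _).trans (by exact_mod_cast (by omega : ⌈8 * Real.pi * G⌉₊ ≤ r))
  have hra : 2 * a₀ ≤ r := (mul_le_mul_of_nonneg_left (le_max_left _ _) (by norm_num)).trans hr2
  have hrb : 2 * b₀ ≤ r := (mul_le_mul_of_nonneg_left (le_max_right _ _) (by norm_num)).trans hr2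
  have hrL : 8 * (r : ℝ) ≤ Real.log T := by
    have h1 : (r : ℝ) ≤ 1 / 8 * (Real.log T / Real.log (Real.log T)) :=
      hrT.trans (mul_le_mul_of_nonneg_right hδ8 hq.le)
    linarith
  obtain ⟨f1, f2, f3, f4, f5⟩ := range_facts hη0 hη4 hC1 hr3 hV1 hV2
  have hl : 202 / ε ≤ Real.log (r / V ^ 2) := hηl.trans f4
  have hl1 : 1 ≤ Real.log (r / V ^ 2) := by
    refine le_trans ?_ hl
    rw [le_div_iff₀ hε0]
    linarith
  have hV0 : 0 < V := by linarith
  set V' : ℝ := (1 + a) * V with hV'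
  have haV : 0 < a * V := by positivity
  have haV1 : a * V ≤ V := mul_le_of_le_one_left hV0.le (by linarith)
  have hV'V : V < V' := by rw [hV', add_mul, one_mul]; linarith
  have hV'2 : V' ≤ 2 * V := by rw [hV', add_mul, one_mul]; linarith
  have hsr := Real.sqrt_nonneg (r : ℝ)
  -- the bound of the exponent
  have hE' : ∀ c : ℝ, (r : ℝ) / 2 ≤ c → (κ + ε / 4) * (V' ^ 2 / Real.log (c / V' ^ 2)) ≤
      (κ + ε / 2) * (V ^ 2 / Real.log (r / V ^ 2)) := fun c hc =>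
    expo hε0 hε1 ha hκ0 hpi4 (by linarith) hV0 hc hl
  have hE6 : (κ + ε / 2) * (V ^ 2 / Real.log (r / V ^ 2)) ≤ 6 * (r : ℝ) := by
    have h1 : V ^ 2 / Real.log (r / V ^ 2) ≤ r := (div_le_self (by positivity) hl1).trans f5
    have h2 : 0 ≤ V ^ 2 / Real.log (r / V ^ 2) := by positivity
    exact mul_le_mul (by linarith) h1 h2 (by norm_num)
  have hgain : ∀ F : ℝ, F ≤ 2 * r → 4 * Real.pi * (G * F) ≤
      Real.exp ((κ + ε) * (V ^ 2 / Real.log (r / V ^ 2)) - (κ + ε / 2) * (V ^ 2 / Real.log (r / V ^ 2))) := fun F hF =>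
    gain hε0 hr1 hG1 hF hCsq hC1 f1 hV1 hl1 hrG
  have hεε₀ : Real.exp (-((κ + ε₀) * (V ^ 2 / Real.log (r / V ^ 2)))) ≤
      Real.exp (-((κ + ε) * (V ^ 2 / Real.log (r / V ^ 2)))) := by
    apply Real.exp_le_exp.2
    have h2 : 0 ≤ V ^ 2 / Real.log (r / V ^ 2) := by positivity
    exact neg_le_neg (mul_le_mul_of_nonneg_right (by linarith) h2)
  have hTL : 0 ≤ T * Real.log T := by positivity
  -- the square roots
  have hroot : ∀ c : ℝ, (r : ℝ) / 2 ≤ c → √(r : ℝ) ≤ 2 * √c := by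
    intro c hc
    rw [Real.sqrt_le_left (by positivity), mul_pow, Real.sq_sqrt (by linarith)]
    linarith
  have hlog : ∀ c : ℝ, 0 < c → c ≤ 2 * r → Real.log c ≤ 2 * Real.log r := by
    intro c hc hcr
    have h1 : Real.log c ≤ Real.log (2 * r) := Real.log_le_log hc hcr
    rw [Real.log_mul (by norm_num) (by linarith)] at h1
    have := Real.log_two_lt_d9
    linarith
  constructor
  · -- long gaps
    refine (mul_le_mul_of_nonneg_right hεε₀ hTL).trans ?_
    set c : ℝ := r + V with hc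
    have hc1 : (r : ℝ) / 2 ≤ c := by rw [hc]; linarith
    have hc2 : c ≤ 2 * r := by rw [hc]; linarith
    have hc0 : 0 < c := by linarith
    have hmain := H₂ T hT2 c (by linarith) ?_ V' ?_ ?_
    · have hE := hE' c hc1
      refine coreW (E' := (κ + ε / 4) * (V' ^ 2 / Real.log (c / V' ^ 2))) (F := G * c) (D := G * (c * sp T))
        (S := {t : ℝ | T ≤ t ∧ t ≤ 2 * T ∧ zc (Ico t (t + c * sp T)) < r ∧
          ∃ g : ℝ, IsOrd g ∧ t - G * (c * sp T) ≤ g ∧ g < t}) hT0 hL0 (by positivity)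
        (by positivity) (by rw [mul_assoc]) ?_ ?_ ?_ ?_
      · refine (hgain c hc2).trans ?_
        apply Real.exp_le_exp.2
        linarith
      · exact bigT hT0 (hE.trans hE6) hc2 hr1' hG1 hL2 hrL
      · refine hmain.trans (measure_mono ?_)
        rintro t ⟨t1, t2, t3, g, g1, g2, g3⟩
        refine ⟨t1, t2, ?_, g, g1, ?_, g3⟩
        · have : (zc (Ico t (t + c * sp T)) : ℝ) < r := by
            refine lt_of_le_of_lt t3 ?_
            rw [hc]
            linarith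
          exact_mod_cast this
        · have h1 : 0 ≤ c * sp T := by positivity
          have h2 : G * (c * sp T) = B * c * sp T + c * sp T := by rw [hG]; ring
          rw [h2]
          linarith
      · exact Pool.Agent.Helper56.UG.cvm T c (G * (c * sp T)) hTe hc0 (by positivity) r
    · calc c ≤ 2 * r := hc2
        _ ≤ 2 * (δ * (Real.log T / Real.log (Real.log T))) := by linarith
        _ = (2 * δ) * (Real.log T / Real.log (Real.log T)) := by ring
        _ ≤ b₁ * (Real.log T / Real.log (Real.log T)) := mul_le_mul_of_nonneg_right hδb hq.le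
    · have h1 := hlog c hc0 hc2
      have h2 : C₂ * Real.log c ≤ C₂ * (2 * Real.log r) := mul_le_mul_of_nonneg_left h1 hC₂.le
      have h3 : 2 * C₂ * Real.log r ≤ C * Real.log r := mul_le_mul_of_nonneg_right hCb (by linarith)
      linarith
    · have h1 := hroot c hc1
      calc V' ≤ 2 * V := hV'2
        _ ≤ 2 * (η * √r) := by linarith
        _ ≤ 2 * (η₂ / 4 * (2 * √c)) := by
            refine mul_le_mul_of_nonneg_left (mul_le_mul hηb h1 hsr (by positivity)) (by norm_num)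
        _ = η₂ * √c := by ring
  · -- short gaps
    refine (mul_le_mul_of_nonneg_right hεε₀ hTL).trans ?_
    set c : ℝ := r - V with hc
    have hc1 : (r : ℝ) / 2 ≤ c := by rw [hc]; linarith
    have hc2 : c ≤ 2 * r := by rw [hc]; linarith
    have hc0 : 0 < c := by linarith
    have hmain := H₁ T hT1 c (by linarith) ?_ V' ?_ ?_
    · have hE := hE' c hc1
      refine coreW (E' := (κ + ε / 4) * (V' ^ 2 / Real.log (c / V' ^ 2))) (F := G * c) (D := c * sp T)
        (S := {t : ℝ | T ≤ t ∧ t ≤ 2 * T ∧ r < zc (Ico t (t + c * sp T))}) hT0 hL0 (by positivity)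
        (by positivity) ?_ ?_ ?_ ?_ ?_
      · have h1 : 0 ≤ c * sp T := by positivity
        have h2 : 1 * (c * sp T) ≤ G * (c * sp T) := mul_le_mul_of_nonneg_right hG1 h1
        rw [mul_assoc]
        linarith
      · refine (hgain c hc2).trans ?_
        apply Real.exp_le_exp.2
        linarith
      · exact bigT hT0 (hE.trans hE6) hc2 hr1' hG1 hL2 hrL
      · refine hmain.trans (measure_mono ?_)
        rintro t ⟨t1, t2, t3⟩
        refine ⟨t1, t2, ?_⟩
        have : (r : ℝ) < zc (Ico t (t + c * sp T)) := by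
          refine lt_of_lt_of_le ?_ t3
          rw [hc]
          linarith
        exact_mod_cast this
      · exact Pool.Agent.Helper56.UG.cvp T c hTe hc0 r
    · calc c ≤ 2 * r := hc2
        _ ≤ 2 * (δ * (Real.log T / Real.log (Real.log T))) := by linarith
        _ = (2 * δ) * (Real.log T / Real.log (Real.log T)) := by ring
        _ ≤ a₁ * (Real.log T / Real.log (Real.log T)) := mul_le_mul_of_nonneg_right hδa hq.le
    · have h1 := hlog c hc0 hc2
      have h2 : C₁ * Real.log c ≤ C₁ * (2 * Real.log r) := mul_le_mul_of_nonneg_left h1 hC₁.le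
      have h3 : 2 * C₁ * Real.log r ≤ C * Real.log r := mul_le_mul_of_nonneg_right hCa (by linarith)
      linarith
    · have h1 := hroot c hc1
      calc V' ≤ 2 * V := hV'2
        _ ≤ 2 * (η * √r) := by linarith
        _ ≤ 2 * (η₁ / 4 * (2 * √c)) := by
            refine mul_le_mul_of_nonneg_left (mul_le_mul hηa h1 hsr (by positivity)) (by norm_num)
        _ = η₁ * √c := by ring

theorem mpW_of (h : Pool.Agent.Helper69.UW.Mp) : MpW := by
  intro ε hε
  obtain ⟨B, c₁, T₀, hB, hc₁, H⟩ := h ε hε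
  have hB0 : 0 < B := by linarith
  refine ⟨B, 1 / B, B, c₁, T₀, hB0, by positivity, hB, hc₁, fun T hT c hc hcT V h1 h2 => ?_⟩
  have h3 := H T hT c V hc h1 ?_ hcT
  · rwa [mul_div_assoc] at h3
  · have h4 := mul_le_mul_of_nonneg_left h2 hB0.le
    calc B * V ≤ B * (1 / B * √c) := h4
      _ = √c := by field_simp

theorem mmW_of (h : Pool.Agent.Helper69.UW.Mm) : MmW := by
  intro ε hε
  obtain ⟨B, c₁, T₀, hB, hc₁, H⟩ := h ε hε
  have hB0 : 0 < B := by linarith
  refine ⟨B, B, 1 / B, B, c₁, T₀, hB0, hB0, by positivity, hB, hc₁, fun T hT c hc hcT V h1 h2 => ?_⟩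
  have h3 := H T hT c V hc h1 ?_ hcT
  · rwa [mul_div_assoc] at h3
  · have h4 := mul_le_mul_of_nonneg_left h2 hB0.le
    calc B * V ≤ B * (1 / B * √c) := h4
      _ = √c := by field_simp

/-- The final statement: large deviations (Theorems U and V) and moderate deviations. -/
def Final3 : Prop := ∃ Θ : ℝ, 0 < Θ ∧ ∀ ε : ℝ, 0 < ε → ∃ (r₀ : ℕ) (C η δ A T₀ : ℝ), 0 < η ∧ 0 < δ ∧ ∀ T : ℝ, T₀ ≤ T →
  ∀ r : ℕ, 1 ≤ r → (r : ℝ) ≤ δ * (Real.log T / Real.log (Real.log T)) →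
  ∀ V : ℝ, V ≤ (if r₀ ≤ r then 1 - ε else Θ) * √r → ∀ E : ℝ, (E = A * r ∨ (r₀ ≤ r ∧ C * Real.log r ≤ V ∧ V ≤ η * √r ∧
    E = (Real.pi ^ 2 / 2 + ε) * (V ^ 2 / Real.log (r / V ^ 2)))) →
    Real.exp (-E) * (T * Real.log T) ≤ ((Glong T (r + V) r).ncard : ℝ) ∧
    Real.exp (-E) * (T * Real.log T) ≤ ((Gshort T (r - V) r).ncard : ℝ)

theorem final3_of (h2 : Pool.Agent.Helper93.UV.Final2) (hW : FinalW) : Final3 := by
  obtain ⟨Θ, hΘ, h2⟩ := h2
  refine ⟨min Θ (1 / 2), by positivity, fun ε hε => ?_⟩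
  set ε' : ℝ := min ε (1 / 2) with hε'
  have hε'0 : 0 < ε' := by positivity
  have hε'2 : ε' ≤ 1 / 2 := min_le_right _ _
  have hε'ε : ε' ≤ ε := min_le_left _ _
  obtain ⟨r₁, δ₁, A, T₁, hδ₁, H1⟩ := h2 ε' hε'0
  obtain ⟨r₂, C, η, δ₂, T₂, hC, hη, hδ₂, H2⟩ := hW ε hε
  have hl := Real.tendsto_log_atTop
  have hll : Tendsto (fun T : ℝ => Real.log (Real.log T)) atTop atTop := hl.comp hl
  obtain ⟨T₃, hT₃⟩ := eventually_atTop.mp ((hl.eventually_gt_atTop 0).and ((hll.eventually_gt_atTop 0).and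
    (eventually_ge_atTop (Real.exp 1))))
  refine ⟨max r₁ r₂, C, η, min δ₁ δ₂, A, max T₃ (max T₁ T₂), hη, lt_min hδ₁ hδ₂, ?_⟩
  intro T hT r hr hrT V hV E hE
  obtain ⟨hL, hLL, hTe⟩ := hT₃ T ((le_max_left _ _).trans hT)
  have hT1 : T₁ ≤ T := (le_max_left _ _).trans ((le_max_right _ _).trans hT)
  have hT2 : T₂ ≤ T := (le_max_right _ _).trans ((le_max_right _ _).trans hT)
  have hq : 0 ≤ Real.log T / Real.log (Real.log T) := by positivity
  have hr1 : (r : ℝ) ≤ δ₁ * (Real.log T / Real.log (Real.log T)) :=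
    hrT.trans (mul_le_mul_of_nonneg_right (min_le_left _ _) hq)
  have hr2 : (r : ℝ) ≤ δ₂ * (Real.log T / Real.log (Real.log T)) :=
    hrT.trans (mul_le_mul_of_nonneg_right (min_le_right _ _) hq)
  rcases hE with hE | ⟨h3, h4, h5, h6⟩
  · obtain ⟨h7, h8⟩ := H1 T hT1 r hr hr1
    have h9 : V ≤ (if r₁ ≤ r then 1 - ε' else Θ) * √r := by
      refine hV.trans (mul_le_mul_of_nonneg_right ?_ (Real.sqrt_nonneg _))
      by_cases h10 : max r₁ r₂ ≤ r
      · rw [if_pos h10, if_pos ((le_max_left _ _).trans h10)]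
        linarith
      · rw [if_neg h10]
        by_cases h11 : r₁ ≤ r
        · rw [if_pos h11]
          refine (min_le_right _ _).trans ?_
          linarith
        · rw [if_neg h11]
          exact min_le_left _ _
    rw [hE]
    refine ⟨h7.trans ?_, h8.trans ?_⟩
    · exact_mod_cast Pool.Agent.Helper24.UV.Glong_mono (add_le_add_right h9 _) hTe r
    · exact_mod_cast Pool.Agent.Helper24.UV.Gshort_mono (sub_le_sub_left h9 _) hTe r
  · rw [h6]
    exact H2 T hT2 r ((le_max_right _ _).trans h3) hr2 V h4 h5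

end Pool.Agent.Helper24.WS
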