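import Mathlib
import Pool.Agent.Helper9.WS.Defs

/-!
WS-1: the coefficients of the Artin-Hasse exponential are `p`-integral.
-/

open MvPolynomial Finset

namespace Pool.Agent.Helper9.WS

theorem ah_zero (p : ℕ) : ah p 0 = 1 := by rw [ah]

theorem ah_rec {p : ℕ} (hp : 1 < p) {n : ℕ} (hn : 0 < n) :
    (n : ℚ) * ah p n = ∑ j ∈ (range n).filter fun j => p ^ j ≤ n, ah p (n - p ^ j) := by
  obtain ⟨m, rfl⟩ : ∃ m, n = m + 1 := ⟨n - 1, by omega⟩
  rw [ah]
  have h : (m : ℚ) + 1 ≠ 0 := by positivity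
  push_cast
  rw [mul_div_cancel₀ _ h]
  refine sum_congr rfl fun j _ => ?_
  have h1 : 0 < p ^ j := pow_pos (by omega) j
  congr 1
  omega

theorem ah_lt {p n : ℕ} (hp : 1 < p) (hn : n < p) : ah p n = 1 / (n.factorial : ℚ) := by
  induction n with
  | zero => simp [ah_zero]
  | succ m ih =>
    have h := ah_rec hp (Nat.succ_pos m)
    have hf : (range (m + 1)).filter (fun j => p ^ j ≤ m + 1) = {0} := by
      ext j
      simp only [mem_filter, mem_range, mem_singleton]
      constructor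
      · rintro ⟨_, h2⟩
        by_contra h3
        have := Nat.le_self_pow h3 p
        omega
      · rintro rfl
        simp
    rw [Nat.succ_eq_add_one] at h
    rw [hf, sum_singleton, pow_zero, Nat.add_sub_cancel, ih (by omega)] at h
    have h0 : ((m.factorial : ℕ) : ℚ) ≠ 0 := by exact_mod_cast m.factorial_ne_zero
    have h1 : ((m : ℚ) + 1) ≠ 0 := by positivity
    rw [Nat.factorial_succ]
    push_cast at h ⊢
    field_simp at h ⊢
    exact h

/-! ### the differential equation -/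

section ode

open PowerSeries

private lemma coeff_D24 (f : ℚ⟦X⟧) (n : ℕ) :
    PowerSeries.coeff n (PowerSeries.X * PowerSeries.derivative ℚ f) = n * PowerSeries.coeff n f := by
  rcases n with _ | n
  · simp
  · rw [PowerSeries.coeff_succ_X_mul, PowerSeries.coeff_derivative]
    push_cast
    ring

/-- `∑ X ^ p ^ j` -/
private noncomputable def ell24 (p : ℕ) : ℚ⟦X⟧ :=
  PowerSeries.mk fun n => by classical exact if ∃ j, n = p ^ j then 1 else 0

private lemma D_eq24 {p : ℕ} (hp : 1 < p) :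
    PowerSeries.X * PowerSeries.derivative ℚ (PowerSeries.mk (ah p)) = ell24 p * PowerSeries.mk (ah p) := by
  classical
  ext n
  rw [coeff_D24, PowerSeries.coeff_mk, PowerSeries.coeff_mul, Nat.sum_antidiagonal_eq_sum_range_succ_mk]
  simp only [ell24, PowerSeries.coeff_mk]
  rcases Nat.eq_zero_or_pos n with rfl | hn
  · have h1 : ¬ ∃ j, 0 = p ^ j := by
      rintro ⟨j, hj⟩
      have := pow_pos (show 0 < p by omega) j
      omega
    simp [h1]
  rw [ah_rec hp hn]
  simp only [ite_mul, one_mul, zero_mul]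
  rw [← sum_filter]
  refine sum_bij (fun j _ => p ^ j) ?_ ?_ ?_ ?_
  · intro j hj
    simp only [mem_filter, mem_range] at hj ⊢
    exact ⟨by omega, j, rfl⟩
  · intro i _ j _ h
    exact Nat.pow_right_injective hp h
  · intro i hi
    simp only [mem_filter, mem_range] at hi
    obtain ⟨hi, j, rfl⟩ := hi
    refine ⟨j, ?_, rfl⟩
    simp only [mem_filter, mem_range]
    have := Nat.lt_pow_self (n := j) hp
    omega
  · intro j _
    rfl

private lemma D_expand24 {p : ℕ} (hp : p ≠ 0) (f : ℚ⟦X⟧) :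
    PowerSeries.X * PowerSeries.derivative ℚ (PowerSeries.expand p hp f) =
      (p : ℚ⟦X⟧) * PowerSeries.expand p hp (PowerSeries.X * PowerSeries.derivative ℚ f) := by
  ext n
  have h1 : (p : ℚ⟦X⟧) = PowerSeries.C (p : ℚ) := by simp
  rw [coeff_D24, h1, PowerSeries.coeff_C_mul, PowerSeries.coeff_expand, PowerSeries.coeff_expand]
  split_ifs with h
  · obtain ⟨k, rfl⟩ := h
    rw [Nat.mul_div_cancel_left _ (Nat.pos_of_ne_zero hp), coeff_D24]
    push_cast
    ring
  · ring

private lemma ell_expand24 {p : ℕ} (hp : 1 < p) :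
    ell24 p = PowerSeries.X + PowerSeries.expand p (by omega) (ell24 p) := by
  classical
  ext n
  rw [map_add, PowerSeries.coeff_expand]
  simp only [ell24, PowerSeries.coeff_mk, PowerSeries.coeff_X]
  by_cases h1 : n = 1
  · subst h1
    have h2 : ¬ p ∣ 1 := by
      rw [Nat.dvd_one]
      omega
    have h3 : ∃ j, 1 = p ^ j := ⟨0, by simp⟩
    simp [h2, h3]
  · rw [if_neg h1, zero_add]
    by_cases h2 : p ∣ n
    · obtain ⟨k, rfl⟩ := h2
      rw [if_pos (dvd_mul_right p k), Nat.mul_div_cancel_left _ (show 0 < p by omega)]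
      congr 1
      apply propext
      constructor
      · rintro ⟨j, hj⟩
        rcases j with _ | j
        · exact absurd (by simpa using hj) h1
        · refine ⟨j, ?_⟩
          rw [pow_succ', Nat.mul_right_inj (by omega)] at hj
          exact hj
      · rintro ⟨j, rfl⟩
        exact ⟨j + 1, by rw [pow_succ']⟩
    · rw [if_neg h2, if_neg]
      rintro ⟨j, rfl⟩
      rcases j with _ | j
      · exact h1 (pow_zero p)
      · exact h2 (dvd_pow_self p (Nat.succ_ne_zero j))

/-- `exp (p X)` -/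
private noncomputable def ex24 (p : ℕ) : ℚ⟦X⟧ := PowerSeries.mk fun n => (p : ℚ) ^ n / n.factorial

private lemma D_ex24 (p : ℕ) :
    PowerSeries.X * PowerSeries.derivative ℚ (ex24 p) = (p : ℚ⟦X⟧) * PowerSeries.X * ex24 p := by
  ext n
  have h1 : (p : ℚ⟦X⟧) = PowerSeries.C (p : ℚ) := by simp
  rw [coeff_D24, h1, mul_assoc, PowerSeries.coeff_C_mul]
  rcases n with _ | n
  · simp
  · rw [PowerSeries.coeff_succ_X_mul]
    simp only [ex24, PowerSeries.coeff_mk]
    have h0 : ((n.factorial : ℕ) : ℚ) ≠ 0 := by exact_mod_cast n.factorial_ne_zero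
    have h2 : ((n : ℚ) + 1) ≠ 0 := by positivity
    rw [Nat.factorial_succ]
    push_cast
    field_simp
    exact pow_succ' _ _

private lemma unique24 {g y : ℚ⟦X⟧} (hg : PowerSeries.coeff 0 g = 0) (h0 : PowerSeries.coeff 0 y = 0)
    (h : PowerSeries.X * PowerSeries.derivative ℚ y = g * y) : y = 0 := by
  ext n
  induction n using Nat.strong_induction_on with
  | _ n ih =>
    rcases Nat.eq_zero_or_pos n with rfl | hn
    · exact h0
    have h1 := congrArg (PowerSeries.coeff n) h
    rw [coeff_D24, PowerSeries.coeff_mul, Finset.sum_eq_zero] at h1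
    · rcases mul_eq_zero.mp h1 with h2 | h2
      · exact absurd (by exact_mod_cast h2) hn.ne'
      · rw [h2, map_zero]
    · rintro ⟨i, j⟩ hij
      rw [Finset.HasAntidiagonal.mem_antidiagonal] at hij
      simp only at hij ⊢
      rcases Nat.eq_zero_or_pos i with rfl | hi
      · rw [hg, zero_mul]
      · rw [ih j (by omega), map_zero, mul_zero]

/-- Dwork's identity. -/
private lemma dwork24 {p : ℕ} (hp : 1 < p) :
    (PowerSeries.mk (ah p)) ^ p = PowerSeries.expand p (by omega) (PowerSeries.mk (ah p)) * ex24 p := by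
  have hp0 : p ≠ 0 := by omega
  set E : ℚ⟦X⟧ := PowerSeries.mk (ah p) with hE
  set Ep := PowerSeries.expand p hp0 E with hEp
  have d1 : PowerSeries.X * PowerSeries.derivative ℚ (E ^ p) = (p : ℚ⟦X⟧) * ell24 p * E ^ p := by
    have h1 : PowerSeries.derivative ℚ (E ^ p) = (p : ℚ⟦X⟧) * (E ^ (p - 1) * PowerSeries.derivative ℚ E) := by
      rw [Derivation.leibniz_pow]
      simp [smul_eq_mul]
    have h2 : E ^ p = E ^ (p - 1) * E := by rw [← pow_succ, Nat.sub_add_cancel (by omega)]
    calc PowerSeries.X * PowerSeries.derivative ℚ (E ^ p)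
        = (p : ℚ⟦X⟧) * E ^ (p - 1) * (PowerSeries.X * PowerSeries.derivative ℚ E) := by
          rw [h1]
          ring
      _ = (p : ℚ⟦X⟧) * ell24 p * E ^ p := by
          rw [D_eq24 hp, h2]
          ring
  have d2 : PowerSeries.X * PowerSeries.derivative ℚ (Ep * ex24 p) = (p : ℚ⟦X⟧) * ell24 p * (Ep * ex24 p) := by
    have h1 : PowerSeries.derivative ℚ (Ep * ex24 p) =
        Ep * PowerSeries.derivative ℚ (ex24 p) + ex24 p * PowerSeries.derivative ℚ Ep := by
      rw [Derivation.leibniz]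
      simp [smul_eq_mul]
    calc PowerSeries.X * PowerSeries.derivative ℚ (Ep * ex24 p)
        = Ep * (PowerSeries.X * PowerSeries.derivative ℚ (ex24 p)) +
            ex24 p * (PowerSeries.X * PowerSeries.derivative ℚ Ep) := by
          rw [h1]
          ring
      _ = (p : ℚ⟦X⟧) * (PowerSeries.X + PowerSeries.expand p hp0 (ell24 p)) * (Ep * ex24 p) := by
          rw [D_ex24, hEp, D_expand24, D_eq24 hp, map_mul]
          ring
      _ = (p : ℚ⟦X⟧) * ell24 p * (Ep * ex24 p) := by rw [← ell_expand24 hp]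
  have h3 : E ^ p - Ep * ex24 p = 0 := by
    refine unique24 (g := (p : ℚ⟦X⟧) * ell24 p) ?_ ?_ ?_
    · have h1 : (p : ℚ⟦X⟧) = PowerSeries.C (p : ℚ) := by simp
      rw [h1, PowerSeries.coeff_C_mul]
      simp only [ell24, PowerSeries.coeff_mk]
      rw [if_neg, mul_zero]
      rintro ⟨j, hj⟩
      have := pow_pos (show 0 < p by omega) j
      omega
    · rw [map_sub, PowerSeries.coeff_zero_eq_constantCoeff, map_pow, map_mul, hEp,
        PowerSeries.constantCoeff_expand, ← PowerSeries.coeff_zero_eq_constantCoeff_apply,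
        ← PowerSeries.coeff_zero_eq_constantCoeff_apply]
      simp [hE, ex24, ah_zero]
    · rw [map_sub, mul_sub, d1, d2]
      ring
  exact sub_eq_zero.mp h3

private lemma pow_diff24 {R : Type*} [CommRing R] {F G : R⟦X⟧} {n p : ℕ} (hn : 0 < n)
    (h : ∀ i < n, PowerSeries.coeff i F = PowerSeries.coeff i G) (h0 : PowerSeries.coeff 0 F = 1) :
    PowerSeries.coeff n (F ^ p) - PowerSeries.coeff n (G ^ p) =
      p * (PowerSeries.coeff n F - PowerSeries.coeff n G) := by
  obtain ⟨u, hu⟩ : (PowerSeries.X : R⟦X⟧) ^ n ∣ F - G := by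
    rw [PowerSeries.X_pow_dvd_iff]
    intro m hm
    rw [map_sub, h m hm, sub_self]
  have h1 : F ^ p - G ^ p = PowerSeries.X ^ n * ((∑ i ∈ range p, F ^ i * G ^ (p - 1 - i)) * u) := by
    rw [← (Commute.all F G).geom_sum₂_mul, hu]
    ring
  have hF0 : PowerSeries.constantCoeff F = 1 := by
    rw [← PowerSeries.coeff_zero_eq_constantCoeff_apply]
    exact h0
  have hG0 : PowerSeries.constantCoeff G = 1 := by
    rw [← PowerSeries.coeff_zero_eq_constantCoeff_apply, ← h 0 hn]
    exact h0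
  have key : ∀ w : R⟦X⟧, PowerSeries.coeff n (PowerSeries.X ^ n * w) = PowerSeries.constantCoeff w := by
    intro w
    have := PowerSeries.coeff_X_pow_mul w n 0
    rw [zero_add] at this
    rw [this, PowerSeries.coeff_zero_eq_constantCoeff_apply]
  rw [← map_sub, ← map_sub, h1, key, hu, key, map_mul, map_sum]
  congr 1
  simp [hF0, hG0]

end ode

private lemma mem24 {p : ℕ} [Fact p.Prime] {j : ℕ} (hj : 0 < j) :
    ∃ w : ℤ_[p], (((p : ℚ) ^ j / (j.factorial : ℚ) : ℚ) : ℚ_[p]) = p * w := by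
  have hp := Fact.out (p := p.Prime)
  obtain ⟨v, m, hm, hv⟩ := Nat.exists_eq_pow_mul_and_not_dvd (Nat.factorial_ne_zero j) p hp.ne_one
  have h1 : v < j := by
    have h2 := sub_one_mul_padicValNat_factorial_lt_of_ne_zero (p := p) hj.ne'
    have h3 : padicValNat p j.factorial = v := by
      rw [hv, padicValNat.mul (pow_ne_zero _ hp.ne_zero) (by rintro rfl; exact hm (dvd_zero p)),
        padicValNat.prime_pow, padicValNat.eq_zero_of_not_dvd hm, add_zero]
    rw [h3] at h2
    have h4 : 1 ≤ p - 1 := by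
      have := hp.two_le
      omega
    calc v = 1 * v := (one_mul v).symm
      _ ≤ (p - 1) * v := Nat.mul_le_mul_right v h4
      _ < j := h2
  have hmu : IsUnit ((m : ℕ) : ℤ_[p]) := by
    rw [PadicInt.isUnit_iff, PadicInt.norm_natCast_eq_one_iff]
    exact (Nat.Prime.coprime_iff_not_dvd hp).mpr hm
  obtain ⟨z, hz⟩ := hmu
  refine ⟨(p : ℤ_[p]) ^ (j - 1 - v) * ((z⁻¹ : ℤ_[p]ˣ) : ℤ_[p]), ?_⟩
  have hz1 : ((m : ℕ) : ℚ_[p]) * (((z⁻¹ : ℤ_[p]ˣ) : ℤ_[p]) : ℚ_[p]) = 1 := by
    have h5 : ((z : ℤ_[p]) : ℤ_[p]) * ((z⁻¹ : ℤ_[p]ˣ) : ℤ_[p]) = 1 := by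
      rw [← Units.val_mul, mul_inv_cancel, Units.val_one]
    rw [hz] at h5
    have h6 := congrArg (fun x : ℤ_[p] => (x : ℚ_[p])) h5
    simpa using h6
  have hm0 : ((m : ℕ) : ℚ_[p]) ≠ 0 := left_ne_zero_of_mul_eq_one hz1
  have hp0 : (p : ℚ_[p]) ≠ 0 := by exact_mod_cast hp.ne_zero
  rw [hv]
  push_cast
  have e1 : (p : ℚ_[p]) ^ j = (p : ℚ_[p]) * (p : ℚ_[p]) ^ (j - 1 - v) * (p : ℚ_[p]) ^ v := by
    rw [← pow_succ', ← pow_add]
    congr 1
    omega
  rw [e1, div_eq_iff (mul_ne_zero (pow_ne_zero _ hp0) hm0)]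
  calc (p : ℚ_[p]) * (p : ℚ_[p]) ^ (j - 1 - v) * (p : ℚ_[p]) ^ v
      = (p : ℚ_[p]) * (p : ℚ_[p]) ^ (j - 1 - v) * (p : ℚ_[p]) ^ v *
        (((m : ℕ) : ℚ_[p]) * (((z⁻¹ : ℤ_[p]ˣ) : ℤ_[p]) : ℚ_[p])) := by rw [hz1, mul_one]
    _ = _ := by ring

private lemma ah_int24 (p : ℕ) [Fact p.Prime] (n : ℕ) : ∃ a : ℤ_[p], (a : ℚ_[p]) = ((ah p n : ℚ) : ℚ_[p]) := by
  classical
  have hp := Fact.out (p := p.Prime)
  have hp0 : p ≠ 0 := hp.ne_zero
  induction n using Nat.strong_induction_on with
  | _ n ih =>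
    rcases Nat.eq_zero_or_pos n with rfl | hn
    · exact ⟨1, by simp [ah_zero]⟩
    have h1 : ∀ i, ∃ a : ℤ_[p], i < n → (a : ℚ_[p]) = ((ah p i : ℚ) : ℚ_[p]) := by
      intro i
      by_cases hi : i < n
      · obtain ⟨a, ha⟩ := ih i hi
        exact ⟨a, fun _ => ha⟩
      · exact ⟨0, fun h => absurd h hi⟩
    choose a ha using h1
    -- the truncated series
    set A : Polynomial ℤ_[p] := ∑ i ∈ range n, Polynomial.monomial i (a i) with hA
    have hAc : ∀ i, A.coeff i = if i < n then a i else 0 := by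
      intro i
      rw [hA, Polynomial.finsetSum_coeff]
      simp only [Polynomial.coeff_monomial]
      rw [Finset.sum_ite_eq']
      simp
    set c : ℤ_[p] →+* ℚ_[p] := PadicInt.Coe.ringHom with hc
    have hc' : ∀ x : ℤ_[p], c x = (x : ℚ_[p]) := fun x => rfl
    set G : PowerSeries ℚ_[p] := ((A.map c : Polynomial ℚ_[p]) : PowerSeries ℚ_[p]) with hG
    set F : PowerSeries ℚ_[p] := PowerSeries.map (Rat.castHom ℚ_[p]) (PowerSeries.mk (ah p)) with hF
    have hFc : ∀ i, PowerSeries.coeff i F = ((ah p i : ℚ) : ℚ_[p]) := by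
      intro i
      rw [hF, PowerSeries.coeff_map, PowerSeries.coeff_mk]
      rfl
    have hGc : ∀ i, PowerSeries.coeff i G = if i < n then ((ah p i : ℚ) : ℚ_[p]) else 0 := by
      intro i
      rw [hG, Polynomial.coeff_coe, Polynomial.coeff_map, hAc]
      split_ifs with h
      · rw [hc', ha i h]
      · rw [map_zero]
    have hd := pow_diff24 (p := p) (F := F) (G := G) hn (fun i hi => by rw [hFc, hGc, if_pos hi])
      (by rw [hFc, ah_zero]; simp)
    rw [hFc, hGc, if_neg (lt_irrefl n), sub_zero] at hd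
    -- the right side of the identity
    have hR : ∃ w : ℤ_[p], PowerSeries.coeff n (F ^ p) =
        (if p ∣ n then ((ah p (n / p) : ℚ) : ℚ_[p]) else 0) + p * w := by
      have e1 : F ^ p = PowerSeries.map (Rat.castHom ℚ_[p])
          (PowerSeries.expand p hp0 (PowerSeries.mk (ah p)) * ex24 p) := by
        rw [hF, ← map_pow, dwork24 hp.one_lt]
      rw [e1, PowerSeries.coeff_map, PowerSeries.coeff_mul, map_sum,
        ← Finset.add_sum_erase _ _ (show (n, 0) ∈ antidiagonal n by simp)]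
      have e2 : ∃ w : ℤ_[p], ∑ x ∈ (antidiagonal n).erase (n, 0), (Rat.castHom ℚ_[p])
          (PowerSeries.coeff x.1 (PowerSeries.expand p hp0 (PowerSeries.mk (ah p))) *
            PowerSeries.coeff x.2 (ex24 p)) = p * w := by
        refine Finset.sum_induction _ (fun x => ∃ w : ℤ_[p], x = (p : ℚ_[p]) * (w : ℚ_[p])) ?_ ?_ ?_
        · rintro x y ⟨w, rfl⟩ ⟨w', rfl⟩
          exact ⟨w + w', by push_cast; ring⟩
        · exact ⟨0, by simp⟩
        · rintro ⟨i, j⟩ hij
          rw [mem_erase, Finset.HasAntidiagonal.mem_antidiagonal] at hij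
          simp only at hij ⊢
          have hj : 0 < j := by
            rcases Nat.eq_zero_or_pos j with rfl | h
            · exact absurd (by rw [show i = n by omega]) hij.1
            · exact h
          obtain ⟨w, hw⟩ := mem24 (p := p) hj
          have e3 : ∃ w' : ℤ_[p], (Rat.castHom ℚ_[p])
              (PowerSeries.coeff i (PowerSeries.expand p hp0 (PowerSeries.mk (ah p)))) = w' := by
            rw [PowerSeries.coeff_expand, PowerSeries.coeff_mk]
            split_ifs with h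
            · obtain ⟨b, hb⟩ := ih (i / p) ((Nat.div_le_self i p).trans_lt (by omega))
              exact ⟨b, by rw [hb]; rfl⟩
            · exact ⟨0, by simp⟩
          obtain ⟨w', hw'⟩ := e3
          refine ⟨w' * w, ?_⟩
          rw [map_mul, hw']
          have e4 : (Rat.castHom ℚ_[p]) (PowerSeries.coeff j (ex24 p)) = p * w := by
            rw [← hw, ex24, PowerSeries.coeff_mk]
            rfl
          rw [e4]
          push_cast
          ring
      obtain ⟨w, hw⟩ := e2
      refine ⟨w, ?_⟩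
      rw [hw]
      congr 1
      simp only
      rw [PowerSeries.coeff_expand, PowerSeries.coeff_mk, ex24, PowerSeries.coeff_mk]
      split_ifs
      · simp
      · simp
    -- the left side
    have hL : ∃ z : ℤ_[p], PowerSeries.coeff n (G ^ p) =
        (if p ∣ n then ((ah p (n / p) : ℚ) : ℚ_[p]) else 0) + p * z := by
      have e1 : PowerSeries.coeff n (G ^ p) = c ((A ^ p).coeff n) := by
        rw [hG, ← Polynomial.coe_pow, Polynomial.coeff_coe, ← Polynomial.map_pow, Polynomial.coeff_map]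
      have e2 : (A ^ p).coeff n - (Polynomial.expand ℤ_[p] p A).coeff n ∈
          RingHom.ker (PadicInt.toZMod : ℤ_[p] →+* ZMod p) := by
        rw [RingHom.mem_ker, map_sub, ← Polynomial.coeff_map, ← Polynomial.coeff_map, Polynomial.map_pow,
          Polynomial.map_expand, ZMod.expand_card, sub_self]
      rw [PadicInt.ker_toZMod, PadicInt.maximalIdeal_eq_span_p, Ideal.mem_span_singleton] at e2
      obtain ⟨z, hz⟩ := e2
      refine ⟨z, ?_⟩
      have e3 : n / p < n := Nat.div_lt_self hn hp.one_lt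
      rw [e1, sub_eq_iff_eq_add.mp hz, hc', Polynomial.coeff_expand hp.pos, hAc, if_pos e3, ← ha _ e3]
      split_ifs with h
      · push_cast
        ring
      · push_cast
        ring
    obtain ⟨w, hw⟩ := hR
    obtain ⟨z, hz⟩ := hL
    refine ⟨w - z, ?_⟩
    have hp1 : (p : ℚ_[p]) ≠ 0 := by exact_mod_cast hp0
    apply mul_left_cancel₀ hp1
    rw [← hd, hw, hz]
    push_cast
    ring

theorem ah_den (p : ℕ) [Fact p.Prime] (n : ℕ) : ¬ p ∣ (ah p n).den := by
  intro h
  obtain ⟨a, ha⟩ := ah_int24 p n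
  have hp := Fact.out (p := p.Prime)
  have h1 : ((ah p n : ℚ) : ℚ_[p]) * ((ah p n).den : ℚ_[p]) = ((ah p n).num : ℚ_[p]) := by
    have := Rat.mul_den_eq_num (ah p n)
    exact_mod_cast congrArg (fun x : ℚ => (x : ℚ_[p])) this
  have h2 : ‖((ah p n).num : ℚ_[p])‖ < 1 := by
    rw [← h1, norm_mul, ← ha]
    have h3 : ‖((ah p n).den : ℚ_[p])‖ < 1 := Padic.norm_natCast_lt_one_iff.mpr h
    have h4 : ‖(a : ℚ_[p])‖ ≤ 1 := a.2
    calc ‖(a : ℚ_[p])‖ * ‖((ah p n).den : ℚ_[p])‖ ≤ 1 * ‖((ah p n).den : ℚ_[p])‖ :=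
          mul_le_mul_of_nonneg_right h4 (norm_nonneg _)
      _ < 1 := by rw [one_mul]; exact h3
  rw [Padic.norm_intCast_lt_one_iff] at h2
  have h3 := (ah p n).reduced
  have h4 : p ∣ (ah p n).num.natAbs := Int.natCast_dvd.mp h2
  have h5 := Nat.dvd_gcd h4 h
  rw [Nat.Coprime.gcd_eq_one h3] at h5
  exact hp.one_lt.ne' (Nat.dvd_one.mp h5)

/-- an integer prime to `p` is a unit -/
private lemma v_cop24 {p : ℕ} {κ L : Type} [Field κ] [Field L] (Φ : Frame p κ L) {d : ℕ}
    (h : Nat.Coprime p d) : Φ.v (d : L) = 1 := by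
  have hint : ∀ z : ℤ, Φ.v (z : L) ≤ 1 := by
    intro z
    rw [ValuationSubring.valuation_le_one_iff]
    exact intCast_mem Φ.O z
  refine le_antisymm (by exact_mod_cast hint d) ?_
  by_contra hlt
  push Not at hlt
  have h1 : (1 : L) = (p : L) * (Nat.gcdA p d : L) + (d : L) * (Nat.gcdB p d : L) := by
    have h2 := Nat.gcd_eq_gcd_ab p d
    rw [Nat.Coprime.gcd_eq_one h] at h2
    have h3 := congrArg (fun z : ℤ => (z : L)) h2
    push_cast at h3
    exact h3
  have h2 : Φ.v (1 : L) < 1 := by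
    rw [h1]
    refine (Φ.v.map_add _ _).trans_lt (max_lt ?_ ?_)
    · rw [map_mul]
      exact mul_lt_one_of_lt_of_le Φ.p_lt (hint _)
    · rw [map_mul]
      exact mul_lt_one_of_lt_of_le hlt (hint _)
  rw [map_one] at h2
  exact lt_irrefl _ h2

theorem v_ah {p : ℕ} [Fact p.Prime] {κ L : Type} [Field κ] [Field L] [CharZero L]
    (Φ : Frame p κ L) (n : ℕ) : Φ.v ((ah p n : ℚ) : L) ≤ 1 := by
  have hp := Fact.out (p := p.Prime)
  have h1 : Φ.v ((ah p n).den : L) = 1 :=
    v_cop24 Φ ((Nat.Prime.coprime_iff_not_dvd hp).mpr (ah_den p n))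
  have h2 : ((ah p n : ℚ) : L) * ((ah p n).den : L) = ((ah p n).num : L) := by
    have := Rat.mul_den_eq_num (ah p n)
    exact_mod_cast congrArg (fun x : ℚ => (x : L)) this
  have h3 : Φ.v ((ah p n : ℚ) : L) = Φ.v ((ah p n).num : L) := by
    rw [← h2, map_mul, h1, mul_one]
  rw [h3, ValuationSubring.valuation_le_one_iff]
  exact intCast_mem Φ.O _

theorem v_ah_lt {p : ℕ} [Fact p.Prime] {κ L : Type} [Field κ] [Field L] [CharZero L]
    (Φ : Frame p κ L) {n : ℕ} (hn : n < p) : Φ.v ((ah p n : ℚ) : L) = 1 := by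
  have hp := Fact.out (p := p.Prime)
  rw [ah_lt hp.one_lt hn]
  push_cast
  rw [one_div, map_inv₀, v_cop24 Φ, inv_one]
  exact (Nat.coprime_factorial_iff hp.ne_one).mpr (by
    rw [hp.minFac_eq]
    exact hn)

end Pool.Agent.Helper9.WS
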