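import Pool.Agent.Helper24.WS.Red

/-!
# WS: the final statement with the cost function
-/

set_option autoImplicit false
open MeasureTheory Set Filter Topology
open Pool.Agent.Helper57.PC Pool.Agent.Helper93.UG

namespace Pool.Agent.Helper24.WS

/-- The exponent. -/
noncomputable def cost (ε C η A : ℝ) (r₀ r : ℕ) (V : ℝ) : ℝ :=
  if r₀ ≤ r ∧ V ≤ η * √r then
    (Real.pi ^ 2 / 2 + ε) * max V (C * Real.log r) ^ 2 / Real.log (r / max V (C * Real.log r) ^ 2)
  else A * r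

/-- The final statement. -/
def Final4 : Prop := ∃ Θ : ℝ, 0 < Θ ∧ ∀ ε : ℝ, 0 < ε → ∃ (r₀ : ℕ) (C η δ A T₀ : ℝ), 0 < C ∧ 0 < η ∧ 0 < δ ∧
    ∀ T : ℝ, T₀ ≤ T → ∀ r : ℕ, 1 ≤ r → (r : ℝ) ≤ δ * (Real.log T / Real.log (Real.log T)) →
    ∀ V : ℝ, V ≤ (if r₀ ≤ r then 1 - ε else Θ) * √r →
      Real.exp (-cost ε C η A r₀ r V) * (T * Real.log T) ≤ ((Glong T (r + V) r).ncard : ℝ) ∧
      Real.exp (-cost ε C η A r₀ r V) * (T * Real.log T) ≤ ((Gshort T (r - V) r).ncard : ℝ)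

lemma log_small {C η : ℝ} (hη : 0 < η) : ∃ r₀ : ℕ, ∀ r : ℕ, r₀ ≤ r → C * Real.log r ≤ η * √r := by
  have h1 : (fun x : ℝ => Real.log x) =o[atTop] fun x : ℝ => x ^ (1 / 2 : ℝ) := isLittleO_log_rpow_atTop (by norm_num)
  have hc : 0 < η / (|C| + 1) := by positivity
  have h2 := (h1.bound hc).and (eventually_ge_atTop 1)
  obtain ⟨x₀, hx₀⟩ := eventually_atTop.1 h2
  refine ⟨⌈x₀⌉₊, fun r hr => ?_⟩
  have h3 : x₀ ≤ r := (Nat.le_ceil _).trans (by exact_mod_cast hr)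
  obtain ⟨h4, h5⟩ := hx₀ r h3
  have h7 : 0 ≤ (r : ℝ) ^ (1 / 2 : ℝ) := by positivity
  rw [Real.norm_eq_abs, Real.norm_eq_abs, abs_of_nonneg (Real.log_nonneg h5), abs_of_nonneg h7,
    ← Real.sqrt_eq_rpow] at h4
  have h6 : 0 ≤ Real.log r := Real.log_nonneg h5
  calc C * Real.log r ≤ (|C| + 1) * Real.log r := by
        apply mul_le_mul_of_nonneg_right _ h6
        have := le_abs_self C
        linarith
    _ ≤ (|C| + 1) * (η / (|C| + 1) * √r) := mul_le_mul_of_nonneg_left h4 (by positivity)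
    _ = η * √r := by field_simp

theorem final4_of (h2 : Pool.Agent.Helper93.UV.Final2) (hW : FinalW) : Final4 := by
  obtain ⟨Θ, hΘ, h2⟩ := h2
  refine ⟨min Θ (1 / 2), by positivity, fun ε hε => ?_⟩
  set ε' : ℝ := min ε (1 / 2) with hε'
  have hε'0 : 0 < ε' := by positivity
  have hε'2 : ε' ≤ 1 / 2 := min_le_right _ _
  have hε'ε : ε' ≤ ε := min_le_left _ _
  obtain ⟨r₁, δ₁, A, T₁, hδ₁, H1⟩ := h2 ε' hε'0
  obtain ⟨r₂, C, η, δ₂, T₂, hC, hη, hδ₂, H2⟩ := hW ε hε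
  obtain ⟨r₃, hr₃⟩ := log_small (C := C) hη
  have hl := Real.tendsto_log_atTop
  have hll : Tendsto (fun T : ℝ => Real.log (Real.log T)) atTop atTop := hl.comp hl
  obtain ⟨T₃, hT₃⟩ := eventually_atTop.mp ((hl.eventually_gt_atTop 0).and ((hll.eventually_gt_atTop 0).and
    (eventually_ge_atTop (Real.exp 1))))
  refine ⟨max r₁ (max r₂ r₃), C, η, min δ₁ δ₂, A, max T₃ (max T₁ T₂), hC, hη, lt_min hδ₁ hδ₂, ?_⟩
  intro T hT r hr hrT V hV
  obtain ⟨hL, hLL, hTe⟩ := hT₃ T ((le_max_left _ _).trans hT)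
  have hT1 : T₁ ≤ T := (le_max_left _ _).trans ((le_max_right _ _).trans hT)
  have hT2 : T₂ ≤ T := (le_max_right _ _).trans ((le_max_right _ _).trans hT)
  have hq : 0 ≤ Real.log T / Real.log (Real.log T) := by positivity
  have hr1 : (r : ℝ) ≤ δ₁ * (Real.log T / Real.log (Real.log T)) :=
    hrT.trans (mul_le_mul_of_nonneg_right (min_le_left _ _) hq)
  have hr2 : (r : ℝ) ≤ δ₂ * (Real.log T / Real.log (Real.log T)) :=
    hrT.trans (mul_le_mul_of_nonneg_right (min_le_right _ _) hq)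
  by_cases hc : max r₁ (max r₂ r₃) ≤ r ∧ V ≤ η * √r
  · obtain ⟨hc1, hc2⟩ := hc
    have h3 : r₂ ≤ r := (le_max_left _ _).trans ((le_max_right _ _).trans hc1)
    have h4 : r₃ ≤ r := (le_max_right _ _).trans ((le_max_right _ _).trans hc1)
    obtain ⟨h7, h8⟩ := H2 T hT2 r h3 hr2 (max V (C * Real.log r)) (le_max_right _ _) (max_le hc2 (hr₃ r h4))
    have h9 : V ≤ max V (C * Real.log r) := le_max_left _ _
    unfold cost
    rw [if_pos ⟨hc1, hc2⟩, mul_div_assoc]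
    refine ⟨h7.trans ?_, h8.trans ?_⟩
    · exact_mod_cast Pool.Agent.Helper24.UV.Glong_mono (add_le_add_right h9 _) hTe r
    · exact_mod_cast Pool.Agent.Helper24.UV.Gshort_mono (sub_le_sub_left h9 _) hTe r
  · obtain ⟨h7, h8⟩ := H1 T hT1 r hr hr1
    have h9 : V ≤ (if r₁ ≤ r then 1 - ε' else Θ) * √r := by
      refine hV.trans (mul_le_mul_of_nonneg_right ?_ (Real.sqrt_nonneg _))
      by_cases h10 : max r₁ (max r₂ r₃) ≤ r
      · rw [if_pos h10, if_pos ((le_max_left _ _).trans h10)]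
        linarith
      · rw [if_neg h10]
        by_cases h11 : r₁ ≤ r
        · rw [if_pos h11]
          refine (min_le_right _ _).trans ?_
          linarith
        · rw [if_neg h11]
          exact min_le_left _ _
    unfold cost
    rw [if_neg hc]
    refine ⟨h7.trans ?_, h8.trans ?_⟩
    · exact_mod_cast Pool.Agent.Helper24.UV.Glong_mono (add_le_add_right h9 _) hTe r
    · exact_mod_cast Pool.Agent.Helper24.UV.Gshort_mono (sub_le_sub_left h9 _) hTe r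

end Pool.Agent.Helper24.WS
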