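import Mathlib

/-!
# Irreducible binary cubic forms over a finite field with cube roots of unity (project WS)
-/

open Polynomial

namespace Pool.Agent.Helper9.WS

/-- the elements fixed by the Frobenius map of a finite field `k` lie in `k` -/
lemma mem_of_pow24 {k K : Type} [Field k] [Fintype k] [Field K] [Algebra k K] {x : K}
    (h : x ^ Fintype.card k = x) : ∃ a : k, algebraMap k K a = x := by
  classical
  have h1 : (X ^ Fintype.card k - X : k[X]).natDegree = Fintype.card k :=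
    FiniteField.X_pow_card_sub_X_natDegree_eq k Fintype.one_lt_card
  have h2 : (X ^ Fintype.card k - X : k[X]).Splits := by
    rw [splits_iff_card_roots, h1, FiniteField.roots_X_pow_card_sub_X k, ← Finset.card_def,
      Finset.card_univ]
  have h3 : (X ^ Fintype.card k - X : k[X]) ≠ 0 :=
    FiniteField.X_pow_card_sub_X_ne_zero k Fintype.one_lt_card
  have h4 : (X ^ Fintype.card k - X : k[X]).Monic := by
    rw [sub_eq_add_neg]
    apply monic_X_pow_add
    rw [degree_neg, degree_X]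
    exact_mod_cast Fintype.one_lt_card
  have h5 : (X ^ Fintype.card k - X : k[X]) = ∏ a : k, (X - C a) := by
    rw [h2.eq_prod_roots_of_monic h4, FiniteField.roots_X_pow_card_sub_X k]
    rfl
  have h6 : aeval x (X ^ Fintype.card k - X : k[X]) = 0 := by
    rw [map_sub, map_pow, aeval_X, h, sub_self]
  rw [h5, map_prod] at h6
  obtain ⟨a, -, ha⟩ := Finset.prod_eq_zero_iff.mp h6
  rw [map_sub, aeval_X, aeval_C, sub_eq_zero] at ha
  exact ⟨a, ha.symm⟩

/-- the discriminant of an irreducible cubic over a finite field is a square, not zero -/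
lemma disc_sq24 {k : Type} [Field k] [Fintype k] (c0 c1 c2 c3 : k) (h3 : c3 ≠ 0)
    (h : ∀ u : k, c3 * u ^ 3 + c2 * u ^ 2 + c1 * u + c0 ≠ 0) :
    ∃ d : k, d ≠ 0 ∧ c1 ^ 2 * c2 ^ 2 - 4 * c0 * c2 ^ 3 - 4 * c1 ^ 3 * c3 +
      18 * c0 * c1 * c2 * c3 - 27 * c0 ^ 2 * c3 ^ 2 = d ^ 2 := by
  classical
  set f : k[X] := C c3 * X ^ 3 + C c2 * X ^ 2 + C c1 * X + C c0 with hf
  have hdeg : f.natDegree = 3 := natDegree_cubic h3
  have hirr : Irreducible f := by
    apply irreducible_of_degree_le_three_of_not_isRoot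
    · rw [hdeg]
      simp
    · intro u hu
      apply h u
      rw [IsRoot.def, hf] at hu
      simpa using hu
  have hev : ∀ (R : Type) [CommRing R] [Algebra k R] (x : R), aeval x f =
      algebraMap k R c3 * x ^ 3 + algebraMap k R c2 * x ^ 2 + algebraMap k R c1 * x +
        algebraMap k R c0 := by
    intro R _ _ x
    rw [hf]
    simp
  have : Fact (Irreducible f) := ⟨hirr⟩
  let K := AdjoinRoot f
  have hfin : Module.Finite k K := (AdjoinRoot.powerBasis hirr.ne_zero).finite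
  have hrank : Module.finrank k K = 3 := by
    rw [(AdjoinRoot.powerBasis hirr.ne_zero).finrank, AdjoinRoot.powerBasis_dim, hdeg]
  have : Finite K := Module.finite_of_finite k
  have : Fintype K := Fintype.ofFinite K
  have hcard : Fintype.card K = Fintype.card k ^ 3 := by
    rw [← hrank]
    exact Module.card_eq_pow_finrank
  set θ : K := AdjoinRoot.root f with hθ
  let F : K →ₐ[k] K := FiniteField.frobeniusAlgHom k K
  have hF : ∀ x, F x = x ^ Fintype.card k := fun x => rfl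
  have hFFF : ∀ x, F (F (F x)) = x := by
    intro x
    rw [hF, hF, hF, ← pow_mul, ← pow_mul]
    have : Fintype.card k * (Fintype.card k * Fintype.card k) = Fintype.card K := by
      rw [hcard]
      ring
    rw [this, FiniteField.pow_card]
  have hroot : ∀ x : K, aeval x f = 0 ↔ algebraMap k K c3 * x ^ 3 + algebraMap k K c2 * x ^ 2 +
      algebraMap k K c1 * x + algebraMap k K c0 = 0 := by
    intro x
    rw [hev K x]
  have hF0 : ∀ x : K, aeval x f = 0 → aeval (F x) f = 0 := by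
    intro x hx
    rw [aeval_algHom_apply, hx, map_zero]
  have h0 : aeval θ f = 0 := by
    rw [hθ, AdjoinRoot.aeval_eq, AdjoinRoot.mk_self]
  have h1 := hF0 _ h0
  have h2 := hF0 _ h1
  have hne : F θ ≠ θ := by
    intro h4
    obtain ⟨a, ha⟩ := mem_of_pow24 h4
    rw [hroot, ← ha] at h0
    apply h a
    apply (algebraMap k K).injective
    rw [map_zero, ← h0]
    simp
  have hne2 : F (F θ) ≠ F θ := by
    intro h4
    exact hne (F.toRingHom.injective h4)
  have hne3 : F (F θ) ≠ θ := by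
    intro h4
    apply hne
    have h5 := congrArg F h4
    rw [hFFF] at h5
    exact h5.symm
  rw [hroot] at h0 h1 h2
  set t1 := F θ with ht1
  set t2 := F t1 with ht2
  set e0 := algebraMap k K c0
  set e1 := algebraMap k K c1
  set e2 := algebraMap k K c2
  set e3 := algebraMap k K c3
  have g01 : e3 * (θ ^ 2 + θ * t1 + t1 ^ 2) + e2 * (θ + t1) + e1 = 0 := by
    have : (θ - t1) * (e3 * (θ ^ 2 + θ * t1 + t1 ^ 2) + e2 * (θ + t1) + e1) = 0 := by
      linear_combination h0 - h1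
    rcases mul_eq_zero.mp this with h4 | h4
    · exact absurd (sub_eq_zero.mp h4).symm hne
    · exact h4
  have g12 : e3 * (t1 ^ 2 + t1 * t2 + t2 ^ 2) + e2 * (t1 + t2) + e1 = 0 := by
    have : (t1 - t2) * (e3 * (t1 ^ 2 + t1 * t2 + t2 ^ 2) + e2 * (t1 + t2) + e1) = 0 := by
      linear_combination h1 - h2
    rcases mul_eq_zero.mp this with h4 | h4
    · exact absurd (sub_eq_zero.mp h4).symm hne2
    · exact h4
  have g2 : e2 = - e3 * (θ + t1 + t2) := by
    have : (θ - t2) * (e3 * (θ + t1 + t2) + e2) = 0 := by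
      linear_combination g01 - g12
    rcases mul_eq_zero.mp this with h4 | h4
    · exact absurd (sub_eq_zero.mp h4).symm hne3
    · linear_combination h4
  have g1 : e1 = e3 * (θ * t1 + θ * t2 + t1 * t2) := by
    rw [g2] at g01
    linear_combination g01
  have g0 : e0 = - e3 * (θ * t1 * t2) := by
    rw [g2, g1] at h0
    linear_combination h0
  set δ := e3 ^ 2 * ((θ - t1) * (t1 - t2) * (t2 - θ)) with hδ
  have hFδ : F δ = δ := by
    rw [hδ, map_mul, map_mul, map_mul, map_sub, map_sub, map_sub, map_pow]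
    have h5 : F t2 = θ := hFFF θ
    have h6 : F e3 = e3 := F.commutes c3
    rw [h5, h6, ← ht1, ← ht2]
    ring
  obtain ⟨d, hd⟩ := mem_of_pow24 hFδ
  refine ⟨d, ?_, ?_⟩
  · rintro rfl
    rw [map_zero] at hd
    have h7 : e3 ≠ 0 := by
      rw [Ne, map_eq_zero]
      exact h3
    have h8 : δ ≠ 0 := mul_ne_zero (pow_ne_zero _ h7) (mul_ne_zero (mul_ne_zero
      (sub_ne_zero.mpr (Ne.symm hne)) (sub_ne_zero.mpr (Ne.symm hne2))) (sub_ne_zero.mpr hne3))
    exact h8 hd.symm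
  · apply (algebraMap k K).injective
    rw [map_pow, hd, hδ]
    simp only [map_sub, map_add, map_mul, map_pow, map_ofNat]
    change e1 ^ 2 * e2 ^ 2 - 4 * e0 * e2 ^ 3 - 4 * e1 ^ 3 * e3 +
      18 * e0 * e1 * e2 * e3 - 27 * e0 ^ 2 * e3 ^ 2 = _
    rw [g2, g1, g0]
    ring

/-- a finite field with `3 ∣ q - 1` contains a square root of `-3`, and `3 ≠ 0` -/
lemma sqrt_neg_three24 {k : Type} [Field k] [Fintype k] (h : 3 ∣ Fintype.card k - 1) :
    (3 : k) ≠ 0 ∧ ∃ s : k, s ^ 2 = -3 := by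
  classical
  have h1 : 3 ∣ Fintype.card kˣ := by
    rw [Fintype.card_units]
    exact h
  obtain ⟨g, hg⟩ := exists_prime_orderOf_dvd_card 3 h1
  have h2 : (g : k) ^ 3 = 1 := by
    have := pow_orderOf_eq_one g
    rw [hg] at this
    rw [← Units.val_pow_eq_pow_val, this, Units.val_one]
  have h3 : (g : k) ≠ 1 := by
    intro h4
    have : g = 1 := Units.ext h4
    rw [this, orderOf_one] at hg
    omega
  refine ⟨?_, 2 * (g : k) + 1, ?_⟩
  · intro h4
    apply h3
    have h5 : ((g : k) - 1) ^ 3 = 0 := by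
      linear_combination h2 + ((g : k) - (g : k) ^ 2) * h4
    exact sub_eq_zero.mp (pow_eq_zero_iff (by norm_num) |>.mp h5)
  · have h5 : ((g : k) - 1) * ((g : k) ^ 2 + g + 1) = 0 := by
      linear_combination h2
    rcases mul_eq_zero.mp h5 with h6 | h6
    · exact absurd (sub_eq_zero.mp h6) h3
    · linear_combination 4 * h6

/-- a cubic form without zeros over a finite field with `3 ∣ q - 1`, `q` odd, is equivalent to
`α X ^ 3 + γ Y ^ 3`, `α / γ` not a cube -/
theorem irred_cubic24 {k : Type} [Field k] [Fintype k] (hq : 3 ∣ Fintype.card k - 1)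
    (h2 : (2 : k) ≠ 0) (c0 c1 c2 c3 : k)
    (h : ∀ u v : k, c3 * u ^ 3 + c2 * u ^ 2 * v + c1 * u * v ^ 2 + c0 * v ^ 3 = 0 →
      u = 0 ∧ v = 0) :
    ∃ a b c d α γ : k, a * d - b * c ≠ 0 ∧ α ≠ 0 ∧ γ ≠ 0 ∧ (∀ x : k, α ≠ x ^ 3 * γ) ∧
      c3 * a ^ 3 + c2 * a ^ 2 * c + c1 * a * c ^ 2 + c0 * c ^ 3 = α ∧
      3 * c3 * a ^ 2 * b + c2 * (a ^ 2 * d + 2 * a * b * c) + c1 * (b * c ^ 2 + 2 * a * c * d) +
        3 * c0 * c ^ 2 * d = 0 ∧
      3 * c3 * a * b ^ 2 + c2 * (b ^ 2 * c + 2 * a * b * d) + c1 * (a * d ^ 2 + 2 * b * c * d) +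
        3 * c0 * c * d ^ 2 = 0 ∧
      c3 * b ^ 3 + c2 * b ^ 2 * d + c1 * b * d ^ 2 + c0 * d ^ 3 = γ := by
  classical
  obtain ⟨hthree, s, hs⟩ := sqrt_neg_three24 hq
  have h3 : c3 ≠ 0 := by
    rintro rfl
    have := (h 1 0 (by ring)).1
    exact one_ne_zero this
  obtain ⟨d0, hd0, hd⟩ := disc_sq24 c0 c1 c2 c3 h3 (fun u hu => by
    have := (h u 1 (by linear_combination hu)).2
    exact one_ne_zero this)
  have hs0 : s ≠ 0 := by
    rintro rfl
    apply hthree
    linear_combination hs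
  set A := c2 ^ 2 - 3 * c3 * c1 with hA
  set B := c2 * c1 - 9 * c3 * c0 with hB
  set C' := c1 ^ 2 - 3 * c2 * c0 with hC
  -- a square root of the discriminant of the Hessian with `B + D ≠ 0`
  obtain ⟨D, hD0, hD, hBD⟩ : ∃ D : k, D ≠ 0 ∧ D ^ 2 = B ^ 2 - 4 * A * C' ∧ B + D ≠ 0 := by
    have h4 : (s * d0) ^ 2 = B ^ 2 - 4 * A * C' := by
      rw [mul_pow, ← hd, hs, hA, hB, hC]
      ring
    by_cases h5 : B + s * d0 = 0
    · refine ⟨-(s * d0), neg_ne_zero.mpr (mul_ne_zero hs0 hd0), by rw [neg_sq, h4], ?_⟩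
      intro h6
      have h7 : 2 * (s * d0) = 0 := by linear_combination h5 - h6
      rcases mul_eq_zero.mp h7 with h8 | h8
      · exact h2 h8
      · exact mul_ne_zero hs0 hd0 h8
    · exact ⟨s * d0, mul_ne_zero hs0 hd0, h4, h5⟩
  set E := -(B + D) with hE
  have hE0 : E ≠ 0 := neg_ne_zero.mpr hBD
  have hEq : E ^ 2 + 2 * B * E + 4 * A * C' = 0 := by
    rw [hE]
    linear_combination hD
  have hdet : 2 * C' * (2 * A) - E * E ≠ 0 := by
    have : 2 * C' * (2 * A) - E * E = 2 * E * D := by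
      rw [hE] at hEq ⊢
      linear_combination hEq
    rw [this]
    exact mul_ne_zero (mul_ne_zero h2 hE0) hD0
  obtain ⟨a, ha⟩ : ∃ a, a = 2 * C' := ⟨_, rfl⟩
  obtain ⟨b, hb⟩ : ∃ b, b = E := ⟨_, rfl⟩
  obtain ⟨c, hc⟩ : ∃ c, c = E := ⟨_, rfl⟩
  obtain ⟨d, hdd⟩ : ∃ d, d = 2 * A := ⟨_, rfl⟩
  have hdet' : a * d - b * c ≠ 0 := by
    rw [ha, hb, hc, hdd]
    exact hdet
  have hH1 : A * a ^ 2 + B * a * c + C' * c ^ 2 = 0 := by
    rw [ha, hc]
    linear_combination C' * hEq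
  have hH2 : A * b ^ 2 + B * b * d + C' * d ^ 2 = 0 := by
    rw [hb, hdd]
    linear_combination A * hEq
  obtain ⟨α, hα⟩ : ∃ α, α = c3 * a ^ 3 + c2 * a ^ 2 * c + c1 * a * c ^ 2 + c0 * c ^ 3 := ⟨_, rfl⟩
  obtain ⟨γ, hγ⟩ : ∃ γ, γ = c3 * b ^ 3 + c2 * b ^ 2 * d + c1 * b * d ^ 2 + c0 * d ^ 3 := ⟨_, rfl⟩
  obtain ⟨β, hβ⟩ : ∃ β, β = 3 * c3 * a ^ 2 * b + c2 * (a ^ 2 * d + 2 * a * b * c) +
      c1 * (b * c ^ 2 + 2 * a * c * d) + 3 * c0 * c ^ 2 * d := ⟨_, rfl⟩
  obtain ⟨β', hβ'⟩ : ∃ β', β' = 3 * c3 * a * b ^ 2 + c2 * (b ^ 2 * c + 2 * a * b * d) +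
      c1 * (a * d ^ 2 + 2 * b * c * d) + 3 * c0 * c * d ^ 2 := ⟨_, rfl⟩
  have k1 : β ^ 2 - 3 * α * β' = 0 := by
    have : β ^ 2 - 3 * α * β' =
        (a * d - b * c) ^ 2 * (A * a ^ 2 + B * a * c + C' * c ^ 2) := by
      rw [hβ, hα, hβ', hA, hB, hC]
      ring
    rw [this, hH1, mul_zero]
  have k2 : β' ^ 2 - 3 * β * γ = 0 := by
    have : β' ^ 2 - 3 * β * γ =
        (a * d - b * c) ^ 2 * (A * b ^ 2 + B * b * d + C' * d ^ 2) := by
      rw [hβ, hγ, hβ', hA, hB, hC]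
      ring
    rw [this, hH2, mul_zero]
  have k3 : β * β' - 9 * α * γ ≠ 0 := by
    have h5 : β * β' - 9 * α * γ =
        (a * d - b * c) ^ 2 * (2 * A * a * b + B * (a * d + b * c) + 2 * C' * c * d) := by
      rw [hβ, hα, hγ, hβ', hA, hB, hC]
      ring
    have h6 : (2 * A * a * b + B * (a * d + b * c) + 2 * C' * c * d) ^ 2 =
        ((a * d - b * c) * D) ^ 2 := by
      rw [mul_pow, hD]
      linear_combination 4 * (A * b ^ 2 + B * b * d + C' * d ^ 2) * hH1
    rw [h5]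
    refine mul_ne_zero (pow_ne_zero _ hdet') ?_
    intro h7
    rw [h7, zero_pow two_ne_zero] at h6
    exact (pow_ne_zero 2 (mul_ne_zero hdet' hD0)) h6.symm
  have k4 : β * β' = 0 := by
    have h5 : (β * β') * (β * β' - 9 * α * γ) = 0 := by
      linear_combination (β' ^ 2) * k1 + 3 * α * β' * k2
    rcases mul_eq_zero.mp h5 with h6 | h6
    · exact h6
    · exact absurd h6 k3
  have k5 : β = 0 ∧ β' = 0 := by
    rcases mul_eq_zero.mp k4 with h6 | h6
    · refine ⟨h6, ?_⟩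
      rw [h6] at k2
      have : β' ^ 2 = 0 := by linear_combination k2
      exact pow_eq_zero_iff two_ne_zero |>.mp this
    · refine ⟨?_, h6⟩
      rw [h6] at k1
      have : β ^ 2 = 0 := by linear_combination k1
      exact pow_eq_zero_iff two_ne_zero |>.mp this
  have hα0 : α ≠ 0 := by
    intro h5
    obtain ⟨e1, e2⟩ := h a c (by rw [← h5, hα])
    apply hdet'
    rw [e1, e2]
    ring
  have hγ0 : γ ≠ 0 := by
    intro h5
    obtain ⟨e1, e2⟩ := h b d (by rw [← h5, hγ])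
    apply hdet'
    rw [e1, e2]
    ring
  refine ⟨a, b, c, d, α, γ, hdet', hα0, hγ0, ?_, hα.symm, ?_, ?_, hγ.symm⟩
  · intro x hx
    have h5 : c3 * (a - b * x) ^ 3 + c2 * (a - b * x) ^ 2 * (c - d * x) +
        c1 * (a - b * x) * (c - d * x) ^ 2 + c0 * (c - d * x) ^ 3 = 0 := by
      have : c3 * (a - b * x) ^ 3 + c2 * (a - b * x) ^ 2 * (c - d * x) +
          c1 * (a - b * x) * (c - d * x) ^ 2 + c0 * (c - d * x) ^ 3 =
          α - β * x + β' * x ^ 2 - γ * x ^ 3 := by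
        rw [hα, hβ, hβ', hγ]
        ring
      rw [this, k5.1, k5.2]
      linear_combination hx
    obtain ⟨e1, e2⟩ := h _ _ h5
    apply hdet'
    linear_combination d * e1 - b * e2
  · rw [← hβ]
    exact k5.1
  · rw [← hβ']
    exact k5.2

end Pool.Agent.Helper9.WS
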