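import Pool.Agent.Helper9.WS.Defs4

/-!
# Newton polygons: the inverse character (project WS)
-/

open MvPolynomial Finset

namespace Pool.Agent.Helper9.WS

section neg24

variable {J R : Type} [Fintype J] [DecidableEq J]

lemma mprod_smul24 [CommSemiring R] (η : ℕ → R) (A : ℕ → Matrix J J R) (s : ℕ) :
    mprod (fun i => η i • A i) s = (∏ i ∈ range s, η i) • mprod A s := by
  induction s with
  | zero => simp [mprod]
  | succ s ih =>
    rw [mprod, mprod, ih, prod_range_succ, Matrix.smul_mul, Matrix.mul_smul, smul_smul, mul_comm]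

lemma charpoly_neg24 [CommRing R] (M : Matrix J J R) :
    (-M).charpoly = (-1) ^ Fintype.card J * M.charpoly.comp (-Polynomial.X) := by
  have h1 : M.charpoly.comp (-Polynomial.X) =
      ((Polynomial.compRingHom (-Polynomial.X : Polynomial R)).mapMatrix M.charmatrix).det := by
    rw [← RingHom.map_det]
    rfl
  have h2 : (Polynomial.compRingHom (-Polynomial.X : Polynomial R)).mapMatrix M.charmatrix =
      -(-M).charmatrix := by
    ext1 i j
    rw [RingHom.mapMatrix_apply, Matrix.map_apply, Matrix.neg_apply]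
    by_cases h : i = j
    · subst h
      rw [Matrix.charmatrix_apply_eq, Matrix.charmatrix_apply_eq, Matrix.neg_apply]
      simp only [Polynomial.coe_compRingHom, Polynomial.sub_comp, Polynomial.X_comp,
        Polynomial.C_comp, map_neg]
      ring
    · rw [Matrix.charmatrix_apply_ne _ _ _ h, Matrix.charmatrix_apply_ne _ _ _ h,
        Matrix.neg_apply]
      simp
  rw [h1, h2, Matrix.det_neg, Matrix.charpoly, ← mul_assoc, ← mul_pow, neg_one_mul, neg_neg,
    one_pow, one_mul]

lemma separable_neg24 [Field R] {M : Matrix J J R} (h : M.charpoly.Separable) :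
    (-M).charpoly.Separable := by
  rw [charpoly_neg24]
  have h1 : (M.charpoly.comp (-Polynomial.X)).Separable := by
    have h2 := IsCoprime.map h (Polynomial.compRingHom (-Polynomial.X : Polynomial R))
    have h3 : (M.charpoly.comp (-Polynomial.X)).derivative =
        -(M.charpoly.derivative.comp (-Polynomial.X)) := by
      rw [Polynomial.derivative_comp]
      simp
    rw [Polynomial.separable_def, h3]
    exact h2.neg_right
  exact Polynomial.Separable.unit_mul ((isUnit_one.neg).pow _) h1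

lemma smul_pm24 [Field R] {η : R} (hη : η = 1 ∨ η = -1) {M : Matrix J J R} (hd : M.det ≠ 0)
    (h : M.charpoly.Separable) : (η • M).det ≠ 0 ∧ (η • M).charpoly.Separable := by
  rcases hη with rfl | rfl
  · rw [one_smul]
    exact ⟨hd, h⟩
  · rw [neg_smul, one_smul]
    refine ⟨?_, separable_neg24 h⟩
    rw [Matrix.det_neg]
    exact mul_ne_zero (pow_ne_zero _ (neg_ne_zero.mpr one_ne_zero)) hd

lemma prod_pm24 [CommRing R] (η : ℕ → R) (h : ∀ i, η i = 1 ∨ η i = -1) (s : ℕ) :
    ∏ i ∈ range s, η i = 1 ∨ ∏ i ∈ range s, η i = -1 := by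
  induction s with
  | zero => simp
  | succ s ih =>
    rw [prod_range_succ]
    rcases ih with h1 | h1 <;> rcases h s with h2 | h2 <;> rw [h1, h2] <;> simp

lemma pow_pm24 [CommRing R] (N m : ℕ) : ((-1 : R) ^ N) ^ m = 1 ∨ ((-1 : R) ^ N) ^ m = -1 := by
  rw [← pow_mul]
  exact neg_one_pow_eq_or R _

end neg24

lemma polyHasse_neg24 {p l : ℕ} {k : Type} [Field k] {S : Finset (ℕ × ℕ)}
    (f : MvPolynomial (Fin 2) k) (j i : ℕ) :
    polyHasse p l S (-f) j i = (((-1 : k) ^ ((p - 1) * j / l)) ^ p ^ i) • polyHasse p l S f j i := by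
  have h : ((-1 : MvPolynomial (Fin 2) k) ^ ((p - 1) * j / l)) =
      C ((-1 : k) ^ ((p - 1) * j / l)) := by
    rw [map_pow, map_neg, map_one]
  ext u v
  rw [Matrix.smul_apply, polyHasse, polyHasse, neg_pow, h, coeff_C_mul, smul_eq_mul, mul_pow]

theorem PolyBlocks.neg {p s l : ℕ} {k : Type} [Field k] {S : Finset (ℕ × ℕ)}
    {f : MvPolynomial (Fin 2) k} (hf : PolyBlocks p s l S f) : PolyBlocks p s l S (-f) := by
  have key : ∀ j, mprod (polyHasse p l S (-f) j) s =
      (∏ i ∈ range s, ((-1 : k) ^ ((p - 1) * j / l)) ^ p ^ i) • mprod (polyHasse p l S f j) s := by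
    intro j
    rw [← mprod_smul24]
    congr 1
    funext i
    exact polyHasse_neg24 f j i
  refine ⟨hf.l_pos, hf.dvd, hf.pos0, hf.pos1, ?_, fun j hj => ?_, fun j hj => ?_⟩
  · rw [support_neg]
    exact hf.supp
  · rw [key]
    exact (smul_pm24 (prod_pm24 _ (fun i => pow_pm24 _ _) s) (hf.det j hj) (hf.sep j hj)).1
  · rw [key]
    exact (smul_pm24 (prod_pm24 _ (fun i => pow_pm24 _ _) s) (hf.det j hj) (hf.sep j hj)).2

theorem PlaneType.neg {p : ℕ} {k : Type} [Field k] {a b : ℕ} {f : MvPolynomial (Fin 2) k}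
    (hf : PlaneType p a b f) : PlaneType p a b (-f) := by
  obtain ⟨h1, h2, h3, h4, h5, h6, h7⟩ := hf
  refine ⟨h1, h2, h3, h4, ?_, ?_, ?_⟩
  · rw [coeff_neg]
    exact neg_ne_zero.mpr h5
  · rw [coeff_neg]
    exact neg_ne_zero.mpr h6
  · rw [support_neg]
    exact h7

lemma hasse_neg24 {p a b : ℕ} {k : Type} [Field k]
    (f : MvPolynomial (Fin 2) k) (j i : ℕ) :
    hasse p a b (-f) j i = (((-1 : k) ^ ((p - 1) * j / (a * b))) ^ p ^ i) • hasse p a b f j i := by
  have h : ((-1 : MvPolynomial (Fin 2) k) ^ ((p - 1) * j / (a * b))) =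
      C ((-1 : k) ^ ((p - 1) * j / (a * b))) := by
    rw [map_pow, map_neg, map_one]
  ext u v
  rw [Matrix.smul_apply, hasse, hasse, neg_pow, h, coeff_C_mul, smul_eq_mul, mul_pow]

theorem PlaneBlocks.neg {p : ℕ} {k : Type} [Field k] {a b s : ℕ} {f : MvPolynomial (Fin 2) k}
    (hf : PlaneBlocks p a b s f) : PlaneBlocks p a b s (-f) := by
  have key : ∀ j, mprod (hasse p a b (-f) j) s =
      (∏ i ∈ range s, ((-1 : k) ^ ((p - 1) * j / (a * b))) ^ p ^ i) •
        mprod (hasse p a b f j) s := by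
    intro j
    rw [← mprod_smul24]
    congr 1
    funext i
    exact hasse_neg24 f j i
  refine ⟨hf.a_pos, hf.b_pos, hf.dvd_a, hf.dvd_b, ?_, fun j hj => ?_, fun j hj => ?_⟩
  · rw [support_neg]
    exact hf.supp
  · rw [key]
    exact (smul_pm24 (prod_pm24 _ (fun i => pow_pm24 _ _) s) (hf.det j hj) (hf.sep j hj)).1
  · rw [key]
    exact (smul_pm24 (prod_pm24 _ (fun i => pow_pm24 _ _) s) (hf.det j hj) (hf.sep j hj)).2

end Pool.Agent.Helper9.WS
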